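import Pool.Agent.H474.ART.Unr
import Pool.Agent.H474.ART.Av
import Pool.Graph.R_pool_sql_team_seeded_3997aac3.Q92.AR.All
import Pool.Graph.R_pool_sql_team_seeded_1acbe0a2.Y772.ND.Ray3
import Pool.Graph.R_pool_sql_team_seeded_1acbe0a2.Y824.AR.Ft

/-!
# The Hecke L-function attached to a linear character of the Galois group of `M/E`
-/

set_option autoImplicit false
set_option linter.unusedSectionVars false

open NumberField Complex Filter Topology IsDedekindDomain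
open scoped ArithmeticFunction.vonMangoldt

namespace Pool.Agent.H474.ART

open Pool.Agent.Y773 (LI cc)
open Pool.Agent.Q92.AR Pool.Agent.Q5.BR
open Pool.Agent.Y772.ND (tr tr_unr tr_le tN)

theorem unr : Pool.Agent.Y149.AR.S_UNR := Pool.Agent.Y759.AR.unr Pool.Agent.Y824.AR.ft

section

variable {E M : Type} [Field E] [NumberField E] [Field M] [NumberField M] [Algebra E M]

/-- `Ψ` is the primitive Hecke character of `E` attached to the character `ψ` of the group of `M/E`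
and `F` is its L-function -/
structure Dat (ψ : (M ≃ₐ[E] M) →* ℂˣ) (Ψ : Ideal (𝓞 E) →*₀ ℂ) (F : ℂ → ℂ) : Prop where
  le : ∀ 𝔞, ‖Ψ 𝔞‖ ≤ 1
  frob : ∃ N : ℕ, N ≠ 0 ∧ ∀ v : HeightOneSpectrum (𝓞 E), (N : 𝓞 E) ∉ v.asIdeal →
    Ψ v.asIdeal = ((ψ (frob M v) : ℂˣ) : ℂ)
  mero : MeromorphicOn F Set.univ
  an : ∀ s : ℂ, s ≠ 0 → s ≠ 1 → AnalyticAt ℂ F s
  eq : ∀ s : ℂ, 1 < s.re → F s = LI Ψ s
  good : ∃ A : ℝ, 1 ≤ A ∧ W388.GoodE (Module.finrank ℚ E : ℝ) A 1 F (fun n => cc Ψ n * (Λ n : ℂ))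
  line : ∀ s : ℂ, s.re = 1 → ∀ G : ℂ → ℂ, AnalyticAt ℂ G s →
    (∀ᶠ z in 𝓝 s, 1 < z.re → G z = LI Ψ z) → G s ≠ 0
  one_ne : ψ ≠ 1 → ∃ G : ℂ → ℂ, Differentiable ℂ G ∧ ∀ z : ℂ, 1 < z.re → G z = LI Ψ z
  one_eq : ψ = 1 → Ψ = tr E

theorem dat_one [IsGalois E M] : ∃ F, Dat (1 : (M ≃ₐ[E] M) →* ℂˣ) (tr E) F := by
  obtain ⟨A, F, hA, hm, ha, hL, hG⟩ := good_unr unr (tr_unr (K := E))
  refine ⟨F, ⟨tr_le, ⟨1, one_ne_zero, fun v _ => ?_⟩, hm, ha, hL, ⟨A, hA, hG⟩,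
    fun s hs G hG1 hG2 => unr_nv (tr_unr (K := E)) hs hG1 hG2, fun h => absurd rfl h, fun _ => rfl⟩⟩
  rw [Pool.Agent.Y772.ND.tr_apply v.ne_bot]
  rfl

open Classical in
theorem dat_ne [IsGalois E M] {ψ : (M ≃ₐ[E] M) →* ℂˣ} (hψ : ψ ≠ 1) : ∃ Ψ F, Dat ψ Ψ F := by
  classical
  obtain ⟨N, hN, -, hray⟩ := recip E M ψ
  obtain ⟨𝔪, h𝔪⟩ : ∃ 𝔪 : Ideal (𝓞 E), 𝔪 = Ideal.span {(N : 𝓞 E)} := ⟨_, rfl⟩
  have hm0 : 𝔪 ≠ ⊥ := by
    rw [h𝔪, Ne, Ideal.span_singleton_eq_bot]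
    exact_mod_cast hN
  have hpsi : ∀ 𝔞, Pool.Agent.Q84.AR.psi N (art ψ) 𝔞 = if 𝔞 ≠ ⊥ ∧ IsCoprime 𝔞 𝔪 then
      ((((art ψ) (Pool.Agent.Q84.AR.dv 𝔞)).toMul : ℂˣ) : ℂ) else 0 := by
    intro 𝔞
    rw [Pool.Agent.Q84.AR.psi_apply, h𝔪]
  obtain ⟨𝔣, e, Ψ, hdvd, hne, hele, hecx, hsupp, hsig, hprim, heq⟩ :=
    Pool.Agent.Q264.AR.prim E 𝔪 (Pool.Agent.Q84.AR.psi N (art ψ)) hm0 (by
    intro 𝔞 h0
    rw [hpsi]
    constructor
    · intro h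
      by_contra h1
      exact h (if_neg fun h2 => h1 h2.2)
    · intro h
      rw [if_pos ⟨h0, h⟩]
      exact Units.ne_zero _) (by
    intro x hx0 hx1 hxp
    have hx0F : (x : E) ≠ 0 := by
      intro h
      exact hx0 (by exact_mod_cast h)
    have h1 : IsCoprime (Ideal.span {x}) 𝔪 := by
      rw [Ideal.isCoprime_iff_exists]
      refine ⟨x, Ideal.mem_span_singleton_self _, -(x - 1), 𝔪.neg_mem hx1, by ring⟩
    rw [hpsi, if_pos ⟨by rwa [Ne, Ideal.span_singleton_eq_bot], h1⟩,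
      Pool.Agent.Q84.AR.dv_span (Units.mk0 (x : E) hx0F) rfl, hray]
    · rfl
    · refine ⟨?_, ?_⟩
      · intro v hv
        rw [Units.val_mk0]
        rw [h𝔪] at hx1
        obtain ⟨c, hc⟩ := Ideal.mem_span_singleton.1 hx1
        have h2 : (x : E) - 1 = (N : E) * (c : E) := by
          have := congrArg (algebraMap (𝓞 E) E) hc
          rw [map_sub, map_one, map_mul, map_natCast] at this
          exact this
        rw [h2, map_mul]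
        calc v.valuation E (N : E) * v.valuation E (c : E) ≤ v.valuation E (N : E) * 1 :=
              mul_le_mul' le_rfl (v.valuation_le_one _)
          _ = _ := mul_one _
      · rw [Units.val_mk0]
        exact hxp)
  obtain ⟨hle, g, hg, hgL⟩ := Pool.Agent.Q84.AR.cont_prim hne hele hecx hsupp hsig hprim
  have hfrob : ∀ v : HeightOneSpectrum (𝓞 E), (N : 𝓞 E) ∉ v.asIdeal →
      Ψ v.asIdeal = ((ψ (frob M v) : ℂˣ) : ℂ) := by
    intro v hv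
    have hc : IsCoprime v.asIdeal 𝔪 := by
      rw [h𝔪]
      exact (Pool.Agent.Q84.AR.cop_v N v).2 hv
    rw [heq _ hc, hpsi, if_pos ⟨v.ne_bot, hc⟩, Pool.Agent.Q84.AR.dv_prime, art_single, one_smul]
    rfl
  -- `Ψ` is not trivial
  have hnt : ¬ ∀ 𝔞 : Ideal (𝓞 E), 𝔞 ≠ ⊥ → Ψ 𝔞 = 1 := by
    intro htr
    apply hψ
    ext g'
    obtain ⟨v, hv, hu, hg'⟩ := Pool.Agent.Q14.AR.cheb E M g' _
      (Pool.Agent.Q92.AR.mem_finite (F := E) hN)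
    have h1 := hfrob v hv
    rw [htr v.asIdeal v.ne_bot] at h1
    have h2 := Pool.Agent.Q125.AR.chi_frob (ψ := ψ) hu (frob_spec v) hg'
    rw [← h2, ← h1]
    rfl
  have hent : ∃ G : ℂ → ℂ, Differentiable ℂ G ∧ ∀ z : ℂ, 1 < z.re → G z = LI Ψ z := by
    rcases hgL with h | ⟨h, -⟩
    · exact ⟨g, hg, fun z hz => (h z hz).symm⟩
    · exact absurd h hnt
  have hsg : ∀ x : E, Pool.Agent.Y773.G.sg e x =
      ∏ w : InfinitePlace E, (((SignType.sign (w.embedding x).re : SignType) : ℤ) : ℂ) ^ e w := by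
    intro x
    unfold Pool.Agent.Y773.G.sg
    refine Finset.prod_congr rfl fun w _ => ?_
    rcases w.isReal_or_isComplex with hw | hw
    · rw [Pool.Agent.Y773.G.rl_of_isReal hw]
    · rw [hecx w hw, pow_zero, pow_zero]
  by_cases htop : 𝔣 = ⊤
  · have hunr : Pool.Agent.Y149.AR.IsUnr e Ψ := by
      refine ⟨hele, hecx, fun 𝔞 h0 => ?_, fun x h0 => ?_⟩
      · refine (hsupp 𝔞 h0).2 ?_
        rw [htop]
        exact Ideal.isCoprime_iff_sup_eq.2 (by simp)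
      · rw [hsig x h0 (by rw [htop]; trivial), hsg]
    obtain ⟨A, F, hA, hm, ha, hL, hG⟩ := good_unr unr hunr
    exact ⟨Ψ, F, ⟨hle, ⟨N, hN, hfrob⟩, hm, ha, hL, ⟨A, hA, hG⟩,
      fun s hs G hG1 hG2 => unr_nv hunr hs hG1 hG2, fun _ => hent, fun h => absurd h hψ⟩⟩
  · have hp : Pool.Agent.Y773.G.IsPrimChar E 𝔣 Ψ := by
      refine ⟨hne, hsupp, fun x h0 h1 h2 => ?_, hprim⟩
      rw [hsig x h0 h1, ← hsg, Pool.Agent.Y773.G.sg_TPos e h0 h2]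
    obtain ⟨A, F, hA, hd, hL, hG⟩ := Pool.Agent.Y772.ND.good_prim hp htop
    obtain ⟨e', he'⟩ := Pool.Agent.Y773.G.IsPrimChar.isModChar Pool.Agent.Y772.G.t_sig hp htop
    refine ⟨Ψ, F, ⟨hle, ⟨N, hN, hfrob⟩, fun s _ => (hd.analyticAt s).meromorphicAt,
      fun s _ _ => hd.analyticAt s, hL, ⟨A, hA, hG⟩, fun s hs G hG1 hG2 => ?_, fun _ => hent,
      fun h => absurd h hψ⟩⟩
    exact Pool.Agent.Y772.G.nv_tot Pool.Agent.Y773.G.t_ent he' hs hG1 hG2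

theorem exists_dat [IsGalois E M] (ψ : (M ≃ₐ[E] M) →* ℂˣ) : ∃ Ψ F, Dat ψ Ψ F := by
  by_cases h : ψ = 1
  · subst h
    obtain ⟨F, hF⟩ := dat_one (E := E) (M := M)
    exact ⟨_, F, hF⟩
  · exact dat_ne h

end

end Pool.Agent.H474.ART
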