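import Pool.Agent.H474.ART.Grp

/-!
# Averages of class functions over the Frobenius elements, with a twist
-/

set_option autoImplicit false
set_option linter.unusedSectionVars false

open NumberField Complex Filter Topology IsDedekindDomain
open scoped ArithmeticFunction.vonMangoldt

namespace Pool.Agent.H474.ART

open Pool.Agent.Q92.AR Pool.Agent.Q5.BR Pool.Agent.H541R3.ART
open Pool.Agent.Q92.RT (induced induced_conj induced_pair class_expand)
open Pool.Agent.Y772.SL (av av_add av_mul av_congr)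

section grp

variable {G : Type} [Group G] [Finite G]

/-- the mean value -/
noncomputable def avg (φ : G → ℂ) : ℂ := (Nat.card G : ℂ)⁻¹ * ∑ᶠ g, φ g

lemma avg_add (φ φ' : G → ℂ) : avg (fun g => φ g + φ' g) = avg φ + avg φ' := by
  unfold avg
  rw [finsum_add_distrib (Set.toFinite _) (Set.toFinite _), mul_add]

lemma avg_smul (z : ℂ) (φ : G → ℂ) : avg (fun g => z * φ g) = z * avg φ := by
  unfold avg
  have h := mul_finsum (f := φ) z
  change (Nat.card G : ℂ)⁻¹ * ∑ᶠ g, z * φ g = _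
  rw [← h]
  ring

lemma avg_zero : avg (fun _ : G => 0) = 0 := by
  unfold avg
  rw [finsum_zero, mul_zero]

open Classical in
lemma avg_induced (H : Subgroup G) (ψ : H →* ℂˣ) :
    avg (induced H ψ) = if ψ = 1 then 1 else 0 := by
  have : Fintype G := Fintype.ofFinite G
  have : Fintype H := Fintype.ofFinite H
  have hG : (Nat.card G : ℂ) ≠ 0 := by exact_mod_cast Nat.card_pos.ne'
  have hm : ∑ᶠ h : H, (fun _ : G => (1 : ℂ)) h * (((ψ h)⁻¹ : ℂˣ) : ℂ) =
      (if ψ = 1 then 1 else 0 : ℂ) * (Nat.card H : ℂ) := by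
    rw [finsum_eq_sum_of_fintype]
    by_cases h1 : ψ = 1
    · rw [if_pos h1, h1]
      simp
    · rw [if_neg h1, zero_mul]
      set f : H →* ℂ := (Units.coeHom ℂ).comp ψ⁻¹ with hf
      have hf1 : f ≠ 1 := by
        intro h2
        apply h1
        ext x
        have h3 := DFunLike.congr_fun h2 x
        simp only [hf, MonoidHom.comp_apply, MonoidHom.inv_apply, Units.coeHom_apply,
          MonoidHom.one_apply] at h3
        have h4 : (ψ x)⁻¹ = 1 := Units.ext h3
        rw [inv_eq_one] at h4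
        rw [h4]
        rfl
      have h5 := sum_hom_units_eq_zero f hf1
      rw [← h5]
      refine Finset.sum_congr rfl fun x _ => ?_
      rw [one_mul]
      rfl
  have h1 := induced_pair H ψ (χ := fun _ => 1) (fun _ _ => rfl) hm
  simp only [mul_one] at h1
  unfold avg
  rw [finsum_eq_sum_of_fintype, h1, mul_comm, mul_assoc, mul_inv_cancel₀ hG, mul_one]
  split_ifs <;> rfl

end grp

section

variable {M : Type} [Field M] [NumberField M] [IsGalois ℚ M]

/-- the class function `φ` has the expected averages over the Frobenius elements, for all twists -/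
def Pav (φ : (M ≃ₐ[ℚ] M) → ℂ) : Prop := ∀ θ : ℝ, ∃ (u : ℕ → ℂ) (B : ℝ), (∀ n, ‖u n‖ ≤ B) ∧
  (∃ S : Finset ℕ, ∀ p : ℕ, p.Prime → p ∉ S → u p = φ (Fr M p) * (p : ℂ) ^ (-(I * (θ : ℂ)))) ∧
  Tendsto (av fun n => (u n).re) (𝓝[>] 0) (𝓝 (if θ = 0 then (avg φ).re else 0)) ∧
  Tendsto (av fun n => (u n).im) (𝓝[>] 0) (𝓝 (if θ = 0 then (avg φ).im else 0))

lemma av_zero' : av (fun _ => 0) = fun _ => 0 := by
  funext σ
  unfold av
  simp

lemma Pav.zero : Pav (M := M) (fun _ => 0) := by
  intro θ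
  refine ⟨fun _ => 0, 0, fun n => by simp, ⟨∅, fun p _ _ => by simp⟩, ?_, ?_⟩
  · simp only [zero_re, av_zero', avg_zero, ite_self]
    exact tendsto_const_nhds
  · simp only [zero_im, av_zero', avg_zero, ite_self]
    exact tendsto_const_nhds

lemma Pav.add {φ φ' : (M ≃ₐ[ℚ] M) → ℂ} (h : Pav φ) (h' : Pav φ') : Pav fun g => φ g + φ' g := by
  classical
  intro θ
  obtain ⟨u, B, hB, ⟨S, hS⟩, h1, h2⟩ := h θ
  obtain ⟨u', B', hB', ⟨S', hS'⟩, h1', h2'⟩ := h' θ
  refine ⟨fun n => u n + u' n, B + B', fun n => (norm_add_le _ _).trans (add_le_add (hB n) (hB' n)),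
    ⟨S ∪ S', fun p hp hpS => ?_⟩, ?_, ?_⟩
  · rw [Finset.mem_union, not_or] at hpS
    change u p + u' p = (φ (Fr M p) + φ' (Fr M p)) * _
    rw [hS p hp hpS.1, hS' p hp hpS.2]
    ring
  · have h3 := h1.add h1'
    have e : (if θ = 0 then (avg φ).re else 0) + (if θ = 0 then (avg φ').re else 0) =
        if θ = 0 then (avg fun g => φ g + φ' g).re else 0 := by
      rw [avg_add]
      split_ifs <;> simp
    rw [e] at h3
    refine h3.congr' ?_
    filter_upwards [self_mem_nhdsWithin] with x hx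
    rw [← av_add (fun n => (abs_re_le_norm _).trans (hB n)) (fun n => (abs_re_le_norm _).trans (hB' n)) hx]
    rfl
  · have h3 := h2.add h2'
    have e : (if θ = 0 then (avg φ).im else 0) + (if θ = 0 then (avg φ').im else 0) =
        if θ = 0 then (avg fun g => φ g + φ' g).im else 0 := by
      rw [avg_add]
      split_ifs <;> simp
    rw [e] at h3
    refine h3.congr' ?_
    filter_upwards [self_mem_nhdsWithin] with x hx
    rw [← av_add (fun n => (abs_im_le_norm _).trans (hB n)) (fun n => (abs_im_le_norm _).trans (hB' n)) hx]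
    rfl

lemma Pav.smul (z : ℂ) {φ : (M ≃ₐ[ℚ] M) → ℂ} (h : Pav φ) : Pav fun g => z * φ g := by
  intro θ
  obtain ⟨u, B, hB, ⟨S, hS⟩, h1, h2⟩ := h θ
  have hre : ∀ (a : ℝ) n, |a * (u n).re| ≤ |a| * B := fun a n => by
    rw [abs_mul]
    exact mul_le_mul_of_nonneg_left ((abs_re_le_norm _).trans (hB n)) (abs_nonneg _)
  have him : ∀ (a : ℝ) n, |a * (u n).im| ≤ |a| * B := fun a n => by
    rw [abs_mul]
    exact mul_le_mul_of_nonneg_left ((abs_im_le_norm _).trans (hB n)) (abs_nonneg _)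
  refine ⟨fun n => z * u n, ‖z‖ * B, fun n => ?_, ⟨S, fun p hp hpS => ?_⟩, ?_, ?_⟩
  · rw [norm_mul]
    exact mul_le_mul_of_nonneg_left (hB n) (norm_nonneg _)
  · change z * u p = (z * φ (Fr M p)) * _
    rw [hS p hp hpS]
    ring
  · have h3 := (h1.const_mul z.re).add (h2.const_mul (-z.im))
    have e : z.re * (if θ = 0 then (avg φ).re else 0) + -z.im * (if θ = 0 then (avg φ).im else 0) =
        if θ = 0 then (avg fun g => z * φ g).re else 0 := by
      rw [avg_smul]
      split_ifs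
      · rw [mul_re]; ring
      · ring
    rw [e] at h3
    refine h3.congr' ?_
    filter_upwards [self_mem_nhdsWithin] with x hx
    rw [← av_mul, ← av_mul, ← av_add (hre _) (him _) hx]
    congr 1
    funext n
    rw [mul_re]
    ring
  · have h3 := (h1.const_mul z.im).add (h2.const_mul z.re)
    have e : z.im * (if θ = 0 then (avg φ).re else 0) + z.re * (if θ = 0 then (avg φ).im else 0) =
        if θ = 0 then (avg fun g => z * φ g).im else 0 := by
      rw [avg_smul]
      split_ifs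
      · rw [mul_im]; ring
      · ring
    rw [e] at h3
    refine h3.congr' ?_
    filter_upwards [self_mem_nhdsWithin] with x hx
    rw [← av_mul, ← av_mul, ← av_add (hre _) (him _) hx]
    congr 1
    funext n
    rw [mul_im]
    ring

lemma Pav.sum {κ : Type*} (s : Finset κ) (z : κ → ℂ) (φ : κ → (M ≃ₐ[ℚ] M) → ℂ)
    (h : ∀ k ∈ s, Pav (φ k)) : Pav fun g => ∑ k ∈ s, z k * φ k g := by
  classical
  induction s using Finset.induction_on with
  | empty =>
    simp only [Finset.sum_empty]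
    exact Pav.zero
  | insert k s hk ih =>
    simp only [Finset.sum_insert hk]
    exact ((h k (Finset.mem_insert_self _ _)).smul (z k)).add
      (ih fun j hj => h j (Finset.mem_insert_of_mem hj))

lemma Pav.induced (H : Subgroup (M ≃ₐ[ℚ] M)) (ψ : H →* ℂˣ) :
    Pav (Pool.Agent.Q92.RT.induced H ψ) := by
  classical
  obtain ⟨d, a, F, hD⟩ := exists_HD H ψ
  intro θ
  obtain ⟨u, hu, hup, hl1, hl2⟩ := hD.lim θ
  obtain ⟨S, hS⟩ := hD.pr
  refine ⟨u, d, hu, ⟨S, fun p hp hpS => ?_⟩, ?_, ?_⟩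
  · rw [hup p hp, hS p hp hpS]
  · have e : (if θ = 0 then (avg (Pool.Agent.Q92.RT.induced H ψ)).re else 0) =
        if ψ = 1 ∧ θ = 0 then 1 else 0 := by
      rw [avg_induced]
      by_cases h1 : θ = 0 <;> by_cases h2 : ψ = 1 <;> simp [h1, h2]
    rw [e]
    exact hl1
  · have e : (if θ = 0 then (avg (Pool.Agent.Q92.RT.induced H ψ)).im else 0) = 0 := by
      rw [avg_induced]
      by_cases h1 : θ = 0 <;> by_cases h2 : ψ = 1 <;> simp [h1, h2]
    rw [e]
    exact hl2

lemma Pav.irr {χ : (M ≃ₐ[ℚ] M) → ℂ} (hχ : χ ∈ Irr (M ≃ₐ[ℚ] M)) : Pav χ := by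
  obtain ⟨ι, _, H, ψ, n, h⟩ := brauer _ χ hχ
  have h1 : χ = fun g => ∑ i, (n i : ℂ) * Pool.Agent.Q92.RT.induced (H i) (ψ i) g := funext h
  rw [h1]
  exact Pav.sum Finset.univ _ _ fun i _ => Pav.induced (H i) (ψ i)

/-- every class function has the expected averages (Chebotarev's theorem with twists) -/
theorem Pav.all {φ : (M ≃ₐ[ℚ] M) → ℂ} (hφ : ∀ g x, φ (x * g * x⁻¹) = φ g) : Pav φ := by
  classical
  have : Fintype (M ≃ₐ[ℚ] M) := Fintype.ofFinite _
  have hG : (Nat.card (M ≃ₐ[ℚ] M) : ℂ) ≠ 0 := by exact_mod_cast Nat.card_pos.ne'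
  have h1 : φ = fun g => ∑ χ ∈ irrF (M ≃ₐ[ℚ] M),
      ((∑ g, φ g * χ g⁻¹) / (Nat.card (M ≃ₐ[ℚ] M) : ℂ)) * χ g := by
    funext g
    refine class_expand hφ (m := fun χ => (∑ g, φ g * χ g⁻¹) / (Nat.card (M ≃ₐ[ℚ] M) : ℂ))
      (fun χ _ => ?_) g
    field_simp
  rw [h1]
  exact Pav.sum _ _ _ fun χ hχ => Pav.irr (mem_irrF.1 hχ)

end

end Pool.Agent.H474.ART
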