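import Pool.Agent.H474.ART.Prm

/-!
# The Hecke L-functions attached to the linear characters of subgroups
-/

set_option autoImplicit false
set_option linter.unusedSectionVars false

open NumberField Complex Filter Topology IsDedekindDomain
open scoped ArithmeticFunction.vonMangoldt

namespace Pool.Agent.H474.ART

open Pool.Agent.Y773 (LI cc)
open Pool.Agent.Q92.AR Pool.Agent.Q5.BR
open Pool.Agent.Q92.RT (induced)
open Pool.Agent.Y772.ND (tN tN_norm)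
open Pool.Agent.Y772.SL (av)

/-- an Euler product over all primes -/
lemma LI_eq_LP {E : Type} [Field E] [NumberField E] {Ψ : Ideal (𝓞 E) →*₀ ℂ}
    (hle : ∀ 𝔞, ‖Ψ 𝔞‖ ≤ 1) {s : ℂ} (hs : 1 < s.re) :
    LI Ψ s = LP (Set.univ : Set (HeightOneSpectrum (𝓞 E))) (fun v => Ψ v.asIdeal) s := by
  classical
  rw [Pool.Agent.Y772.DK.LI_eq_exp _ hle hs, ← (Pool.Agent.Q84.AR.hasSum_dbl hle hs).tsum_eq]
  unfold LP
  congr 1
  refine tsum_congr fun x => ?_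
  unfold lterm
  rw [if_pos (Set.mem_univ _)]

section

variable {M : Type} [Field M] [NumberField M] [IsGalois ℚ M]

/-- the order in the half plane `Re s > 0` -/
lemma order_field {E : Type} [Field E] [NumberField E] [Algebra E M] [IsScalarTower ℚ E M]
    [IsGalois E M] (ψ : fixer ℚ E M →* ℂˣ) (ψ' : (M ≃ₐ[E] M) →* ℂˣ)
    (hψ : ∀ (y : M ≃ₐ[E] M) (hy : y.restrictScalars ℚ ∈ fixer ℚ E M),
      ψ ⟨y.restrictScalars ℚ, hy⟩ = ψ' y)
    {Ψ : Ideal (𝓞 E) →*₀ ℂ} {F : ℂ → ℂ} (h : Dat ψ' Ψ F) :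
    ∃ f : ℂ → ℂ, Continues f (artinL M (induced (fixer ℚ E M) ψ)) ∧
      ∀ s : ℂ, 0 < s.re → meromorphicOrderAt f s = meromorphicOrderAt F s := by
  classical
  obtain ⟨N, hN, hfr⟩ := h.frob
  have hχ : ∀ w : HeightOneSpectrum (𝓞 E), ‖((ψ' (frob M w) : ℂˣ) : ℂ)‖ ≤ 1 :=
    fun w => (norm_char ψ' _).le
  set P : Set (HeightOneSpectrum (𝓞 E)) := {w | Unramified M (w.under (𝓞 ℚ))} with hP
  set P' : Set (HeightOneSpectrum (𝓞 E)) := {v | (N : 𝓞 E) ∉ v.asIdeal} with hP'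
  have h1 : (P \ P').Finite := by
    refine (mem_finite (F := E) hN).subset ?_
    rintro w ⟨-, hw⟩
    exact not_not.1 hw
  have h2 : (P' \ P).Finite := by
    refine (ramified_above_finite (K := ℚ) (F := E) (M := M)).subset ?_
    rintro w ⟨-, hw⟩
    exact hw
  have h3 : ((Set.univ : Set (HeightOneSpectrum (𝓞 E))) \ P').Finite := by
    refine (mem_finite (F := E) hN).subset ?_
    rintro w ⟨-, hw⟩
    exact not_not.1 hw
  have h4 : (P' \ (Set.univ : Set (HeightOneSpectrum (𝓞 E)))).Finite := by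
    refine Set.Finite.subset Set.finite_empty ?_
    rintro w ⟨-, hw⟩
    exact (hw (Set.mem_univ _)).elim
  obtain ⟨E1, hE1, hE1', hE1''⟩ := LP_compare (χ := fun w => ((ψ' (frob M w) : ℂˣ) : ℂ))
    (χ' := fun w => Ψ w.asIdeal) h1 h2 hχ (fun w => h.le _) (fun w hw => (hfr w hw.2).symm)
  obtain ⟨E2, hE2, hE2', hE2''⟩ := LP_compare (χ := fun w => Ψ w.asIdeal)
    (χ' := fun w => Ψ w.asIdeal) h4 h3 (fun w => h.le _) (fun w => h.le _) (fun w _ => rfl)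
  refine ⟨fun s => (E1 s * E2 s) * F s, ⟨fun s hs => ((hE1 s hs).fun_mul (hE2 s hs)).fun_mul
    (h.mero s hs), fun s hs => ?_⟩, fun s hs => ?_⟩
  · change (E1 s * E2 s) * F s = _
    rw [artinL_induced ψ ψ' hψ hs, ← hP, hE1' s hs, hE2' s hs, h.eq s hs, LI_eq_LP h.le hs]
    ring
  · obtain ⟨a1, a2⟩ := hE1'' s hs
    obtain ⟨b1, b2⟩ := hE2'' s hs
    have hEE : AnalyticAt ℂ (fun s => E1 s * E2 s) s := a1.fun_mul b1
    rw [fun_meromorphicOrderAt_mul hEE.meromorphicAt (h.mero s (Set.mem_univ _)),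
      hEE.meromorphicOrderAt_eq, hEE.analyticOrderAt_eq_zero.2 (mul_ne_zero a2 b2)]
    simp

open Classical in
/-- the data of the L-function of the linear character `ψ` of `H` -/
structure HD (H : Subgroup (M ≃ₐ[ℚ] M)) (ψ : H →* ℂˣ) (d : ℝ) (a : ℕ → ℂ) (F : ℂ → ℂ) : Prop where
  d1 : 1 ≤ d
  deg : d * Nat.card H = Nat.card (M ≃ₐ[ℚ] M)
  bd : ∀ n, ‖a n‖ ≤ d
  pr : ∃ S : Finset ℕ, ∀ p : ℕ, p.Prime → p ∉ S → a p = induced H ψ (Fr M p)
  good : ∃ A : ℝ, 1 ≤ A ∧ W388.GoodE d A 1 F (fun n => a n * (Λ n : ℂ))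
  mero : MeromorphicOn F Set.univ
  an : ∀ s : ℂ, s ≠ 0 → s ≠ 1 → AnalyticAt ℂ F s
  ord : ∃ f : ℂ → ℂ, Continues f (artinL M (induced H ψ)) ∧
    ∀ s : ℂ, 0 < s.re → meromorphicOrderAt f s = meromorphicOrderAt F s
  lim : ∀ θ : ℝ, ∃ u : ℕ → ℂ, (∀ n, ‖u n‖ ≤ d) ∧
    (∀ p : ℕ, p.Prime → u p = a p * (p : ℂ) ^ (-(I * (θ : ℂ)))) ∧
    Tendsto (av fun n => (u n).re) (𝓝[>] 0) (𝓝 (if ψ = 1 ∧ θ = 0 then 1 else 0)) ∧
    Tendsto (av fun n => (u n).im) (𝓝[>] 0) (𝓝 0)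

theorem exists_HD (H : Subgroup (M ≃ₐ[ℚ] M)) (ψ : H →* ℂˣ) : ∃ d a F, HD H ψ d a F := by
  classical
  have h := fixer_fixedField (K := ℚ) (M := M) H
  have hgal : IsGalois (IntermediateField.fixedField H) M := inferInstance
  set E := IntermediateField.fixedField H with hE
  let ψ1 : fixer ℚ E M →* ℂˣ := ψ.comp (Subgroup.inclusion (le_of_eq h))
  have h2 : induced (fixer ℚ E M) ψ1 = induced H ψ := induced_congr h fun x hx hx' => rfl
  let ψ' : (M ≃ₐ[E] M) →* ℂˣ := ψ1.comp (resF ℚ E M)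
  have hψ' : ∀ (y : M ≃ₐ[E] M) (hy : y.restrictScalars ℚ ∈ fixer ℚ E M),
      ψ1 ⟨y.restrictScalars ℚ, hy⟩ = ψ' y := fun y hy => rfl
  have hone : ψ' = 1 ↔ ψ = 1 := by
    constructor
    · intro h1
      apply MonoidHom.ext
      rintro ⟨x, hx⟩
      have hx' := (SetLike.ext_iff.1 h x).2 hx
      let y : M ≃ₐ[E] M := { x.toRingEquiv with commutes' := fun z => hx' z }
      have h3 : ψ' y = ψ ⟨x, hx⟩ := rfl
      rw [← h3, h1]
      rfl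
    · intro h1
      apply MonoidHom.ext
      intro y
      change ψ _ = 1
      rw [h1]
      rfl
  obtain ⟨Ψ, F, hD⟩ := exists_dat ψ'
  obtain ⟨A₀, hA₀, hdir⟩ := Pool.Agent.Y772.DK.t_dirK E
  have hcc : ∀ (φ : Ideal (𝓞 E) →*₀ ℂ), (∀ 𝔞, ‖φ 𝔞‖ ≤ 1) → ∀ n, ‖cc φ n‖ ≤ (Module.finrank ℚ E : ℝ) :=
    fun φ hφ => (hdir φ hφ).2.2.2.2.2.2.1
  refine ⟨(Module.finrank ℚ E : ℝ), cc Ψ, F, ?_, ?_, hcc Ψ hD.le, ?_, hD.good, hD.mero, hD.an, ?_,
    fun θ => ⟨cc (tN θ Ψ), hcc _ (tN_norm hD.le θ), fun p hp => ?_, ?_⟩⟩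
  · exact_mod_cast (Module.finrank_pos : 0 < Module.finrank ℚ E)
  · have h3 : Module.finrank E M = Nat.card H := IntermediateField.finrank_fixedField_eq_card H
    have h4 : Nat.card (M ≃ₐ[ℚ] M) = Module.finrank ℚ M := IsGalois.card_aut_eq_finrank ℚ M
    rw [← h3, h4, ← Module.finrank_mul_finrank ℚ E M]
    push_cast
    rfl
  · obtain ⟨S, hS⟩ := cc_field ψ1 ψ' hψ' hD
    refine ⟨S, fun p hp hpS => ?_⟩
    rw [hS p hp hpS, h2]
  · have := order_field ψ1 ψ' hψ' hD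
    rwa [h2] at this
  · have hv := fun (φ : Ideal (𝓞 E) →*₀ ℂ) (hφ : ∀ 𝔞, ‖φ 𝔞‖ ≤ 1) => (hdir φ hφ).2.2.2.2.2.2.2.1
    rw [hv _ (tN_norm hD.le θ) p hp, hv _ hD.le p hp, finsum_mem_mul]
    refine finsum_mem_congr rfl fun P hP => ?_
    have hP' : Ideal.absNorm P = p := hP
    rw [Pool.Agent.Y772.ND.tN_apply, hP']
  · have hl := hD.lims θ
    have e : (if ψ' = 1 ∧ θ = 0 then (1 : ℝ) else 0) = if ψ = 1 ∧ θ = 0 then 1 else 0 := by
      by_cases h1 : ψ = 1 ∧ θ = 0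
      · rw [if_pos h1, if_pos ⟨hone.2 h1.1, h1.2⟩]
      · rw [if_neg h1, if_neg fun h3 => h1 ⟨hone.1 h3.1, h3.2⟩]
    rw [← e]
    exact hl

end

end Pool.Agent.H474.ART
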