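import Pool.Agent.H474.ART.Car

/-!
# Averages of the coefficients of the Hecke L-functions
-/

set_option autoImplicit false
set_option linter.unusedSectionVars false

open NumberField Complex Filter Topology IsDedekindDomain
open scoped ArithmeticFunction.vonMangoldt

namespace Pool.Agent.H474.ART

open Pool.Agent.Y773 (LI cc)
open Pool.Agent.Q92.AR Pool.Agent.Q5.BR
open Pool.Agent.Y772.ND (tr tr_unr tr_le tN tN_norm tN_zero LI_tN)
open Pool.Agent.Y772.SL (av lim_av lim_one)
open Pool.Agent.Y772.NZ (one near_one one_norm)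

lemma tr_eq_one (E : Type) [Field E] [NumberField E] : tr E = one E := by
  ext 𝔞
  by_cases h : 𝔞 = ⊥
  · rw [h, ← Ideal.zero_eq_bot, map_zero, map_zero]
  · rw [Pool.Agent.Y772.ND.tr_apply h]
    exact (if_neg (by rwa [Ideal.zero_eq_bot])).symm

section

variable {E M : Type} [Field E] [NumberField E] [Field M] [NumberField M] [Algebra E M]
  {ψ : (M ≃ₐ[E] M) →* ℂˣ} {Ψ : Ideal (𝓞 E) →*₀ ℂ} {F : ℂ → ℂ}

open Classical in
theorem Dat.lims (h : Dat ψ Ψ F) (θ : ℝ) :
    Tendsto (av fun n => (cc (tN θ Ψ) n).re) (𝓝[>] 0) (𝓝 (if ψ = 1 ∧ θ = 0 then 1 else 0)) ∧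
    Tendsto (av fun n => (cc (tN θ Ψ) n).im) (𝓝[>] 0) (𝓝 0) := by
  by_cases hθ : θ = 0
  · subst hθ
    rw [tN_zero]
    by_cases hψ : ψ = 1
    · rw [if_pos ⟨hψ, rfl⟩, h.one_eq hψ, tr_eq_one]
      refine ⟨lim_one Pool.Agent.Y772.DK.t_dirK E, ?_⟩
      obtain ⟨g, hg, hg1, hgz⟩ := near_one E
      refine lim_im2 Pool.Agent.Y772.DK.t_dirK (one E) (one_norm E) g hg 1 ?_
      filter_upwards [hgz] with z hz h1
      have hz1 : z - 1 ≠ 0 := by
        intro h0
        have : z = 1 := by linear_combination h0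
        rw [this] at h1
        simp at h1
      rw [pow_one, hz h1, div_mul_cancel₀ _ hz1]
    · rw [if_neg fun h' => hψ h'.1]
      obtain ⟨G, hG, hGL⟩ := h.one_ne hψ
      have h0 := h.line 1 one_re G (hG.analyticAt 1) (Eventually.of_forall hGL)
      refine ⟨lim_av Pool.Agent.Y772.DK.t_dirK Ψ h.le (hG.analyticAt 1) h0
        (Eventually.of_forall fun z hz => (hGL z hz).symm), ?_⟩
      refine lim_im2 Pool.Agent.Y772.DK.t_dirK Ψ h.le G (hG.analyticAt 1) 0
        (Eventually.of_forall fun z hz => ?_)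
      rw [pow_zero, mul_one, hGL z hz]
  · rw [if_neg fun h' => hθ h'.2]
    set s₀ : ℂ := 1 + I * θ with hs₀
    have hs₀re : s₀.re = 1 := by rw [hs₀]; simp
    have hs₀im : s₀.im = θ := by rw [hs₀]; simp
    have hne0 : s₀ ≠ 0 := by
      intro h0
      rw [h0, zero_im] at hs₀im
      exact hθ hs₀im.symm
    have hne1 : s₀ ≠ 1 := by
      intro h0
      rw [h0, one_im] at hs₀im
      exact hθ hs₀im.symm
    have hFan := h.an s₀ hne0 hne1
    have hF0 := h.line s₀ hs₀re F hFan (Eventually.of_forall h.eq)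
    have han : AnalyticAt ℂ (fun s : ℂ => F (s + I * θ)) 1 := by
      have h1 : AnalyticAt ℂ (fun s : ℂ => s + I * θ) 1 := analyticAt_id.add analyticAt_const
      exact AnalyticAt.comp' (g := F) (f := fun s : ℂ => s + I * θ) hFan h1
    have hLI : ∀ s : ℂ, 1 < s.re → LI (tN θ Ψ) s = F (s + I * θ) := by
      intro s hs
      rw [LI_tN]
      exact (h.eq _ (by simpa using hs)).symm
    refine ⟨lim_av Pool.Agent.Y772.DK.t_dirK _ (tN_norm h.le θ) han hF0
      (Eventually.of_forall hLI), ?_⟩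
    refine lim_im2 Pool.Agent.Y772.DK.t_dirK _ (tN_norm h.le θ) _ han 0
      (Eventually.of_forall fun z hz => ?_)
    rw [pow_zero, mul_one, hLI z hz]

end

end Pool.Agent.H474.ART
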