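import Pool.Agent.H474.ART.Ord

/-!
# Linear independence of the divisors of the Artin L-functions of a Galois extension of `ℚ`
-/

set_option autoImplicit false
set_option linter.unusedSectionVars false

open NumberField Complex Filter Topology IsDedekindDomain
open scoped ArithmeticFunction.vonMangoldt

namespace Pool.Agent.H474.ART

open Pool.Agent.Q92.AR Pool.Agent.Q5.BR Pool.Agent.H541R3.ART
open Pool.Agent.Q92.RT (induced)
open Pool.Agent.Y772.ND (DD' core netM quo2 norm_nI box)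
open Pool.Agent.Y772.ND.Pub (Box tr_card tr_sum ord_tr mord_tr)
open H370 (mult)

section

variable {M : Type} [Field M] [NumberField M] [IsGalois ℚ M]

/-- the order of the meromorphic function `L` at `s`, an integer (`0` if `L = 0` near `s`) -/
noncomputable def od (L : ℂ → ℂ) (s : ℂ) : ℤ := (meromorphicOrderAt L s).untop₀

/-- the product `∏ L_i(s + i t_i)^{n_i}` -/
noncomputable def prodL {ι : Type} [Fintype ι] (L : ι → ℂ → ℂ) (t : ι → ℝ) (n : ι → ℤ) (s : ℂ) : ℂ :=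
  ∏ i, L i (s + I * t i) ^ n i

/-- nonnegative shifts -/
theorem main_nonneg {ι : Type} [Fintype ι] (χ : ι → (M ≃ₐ[ℚ] M) → ℂ)
    (hχ : ∀ i, χ i ∈ Irr (M ≃ₐ[ℚ] M)) (τ : ι → ℝ) (hτ : ∀ i, 0 ≤ τ i)
    (hne : ∀ i j, i ≠ j → χ i ≠ χ j ∨ τ i ≠ τ j) (L : ι → ℂ → ℂ)
    (hL : ∀ i, Continues (L i) (artinL M (χ i))) :
    (∀ lam : ι → ℝ, lam ≠ 0 → ∃ c : ℝ, 0 < c ∧ ∀ᶠ T : ℝ in atTop, c * T * Real.log T ≤
      ({s : ℂ | s ∈ Box T ∧ ∑ i, lam i * (od (L i) (s + I * τ i) : ℝ) ≠ 0}.ncard : ℝ)) ∧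
    (∀ n : ι → ℤ, n ≠ 0 → ∑ i, (n i : ℂ) * χ i 1 = 0 → ∃ c : ℝ, 0 < c ∧ ∀ᶠ T : ℝ in atTop,
      c * T * Real.log T ≤ ((∑ᶠ s ∈ Box T, (∑ i, n i * od (L i) (s + I * τ i)).toNat : ℕ) : ℝ) ∧
      c * T * Real.log T ≤
        ((∑ᶠ s ∈ Box T, (-∑ i, n i * od (L i) (s + I * τ i)).toNat : ℕ) : ℝ)) := by
  classical
  choose κ hκ m d a F hD using fun i => exists_BD (hχ i)
  choose A₀ hA₀ hgood₀ using fun (i : ι) (k : κ i) => (hD i).good k
  -- the family
  let J : Type := Σ i, κ i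
  let d' : J → ℝ := fun j => d j.1 j.2
  have hd' : ∀ j, 1 ≤ d' j := fun j => (hD j.1).d1 j.2
  choose A' hA' hgood' using fun j : J => Pool.Agent.Y923.ND.t_SHIFT (d' j) (A₀ j.1 j.2) (F j.1 j.2)
    (fun n => a j.1 j.2 n * (Λ n : ℂ)) (hd' j) (hA₀ j.1 j.2) (hgood₀ j.1 j.2) (τ j.1) (hτ j.1)
  let F' : J → ℂ → ℂ := fun j s => F j.1 j.2 (s + I * τ j.1)
  let a' : J → ℕ → ℂ := fun j n => (a j.1 j.2 n * (Λ n : ℂ)) * (n : ℂ) ^ (-(I * (τ j.1 : ℂ)))
  have ha' : ∀ j n, ‖a' j n‖ ≤ d' j * Λ n := by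
    intro j n
    by_cases hn : n = 0
    · subst hn
      simp [a']
    change ‖(a j.1 j.2 n * (Λ n : ℂ)) * (n : ℂ) ^ (-(I * (τ j.1 : ℂ)))‖ ≤ _
    rw [norm_mul, norm_nI n hn, mul_one, norm_mul, Complex.norm_real,
      Real.norm_of_nonneg ArithmeticFunction.vonMangoldt_nonneg]
    exact mul_le_mul_of_nonneg_right ((hD j.1).bd j.2 n) ArithmeticFunction.vonMangoldt_nonneg
  -- orders
  have hord : ∀ i (s : ℂ), 0 < s.re → s.re < 1 → od (L i) s = ∑ k, m i k * (mult (F i k) s : ℤ) := by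
    intro i s h0 h1
    unfold od
    rw [(hD i).ord (L i) (hL i) s h0 (by rintro rfl; simp at h1)]
    rfl
  have hre : ∀ (s : ℂ) (t : ℝ), (s + I * t).re = s.re := fun s t => by simp
  have hmult : ∀ (j : J) (s : ℂ), mult (F' j) s = mult (F j.1 j.2) (s + I * τ j.1) := fun j s =>
    ord_tr (F j.1 j.2) (I * τ j.1) s
  -- first part
  have part1 : ∀ lam : ι → ℝ, lam ≠ 0 → ∃ c : ℝ, 0 < c ∧ ∀ᶠ T : ℝ in atTop,
      c * T * Real.log T ≤ ((DD' F' (fun j : J => lam j.1 * (m j.1 j.2 : ℝ)) T).ncard : ℝ) := by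
    intro lam hlam
    choose S hS using fun i => (hD i).pr
    obtain ⟨c1, hc1, hm⟩ := mertens χ hχ τ hne (fun i n => ∑ k, (m i k : ℂ) * a i k n)
      (fun i => ∑ k, |(m i k : ℝ)| * d i k) (fun i n => by
        refine (norm_sum_le _ _).trans (Finset.sum_le_sum fun k _ => ?_)
        rw [norm_mul]
        have e : ‖((m i k : ℤ) : ℂ)‖ = |(m i k : ℝ)| := by
          rw [← Complex.ofReal_intCast, Complex.norm_real, Real.norm_eq_abs]
        rw [e]
        exact mul_le_mul_of_nonneg_left ((hD i).bd k n) (abs_nonneg _)) S hS lam hlam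
    refine core d' A' d' (fun _ => 1) F' a' _ hd' hA' (fun j => by linarith [hd' j])
      (fun _ => le_rfl) hgood' ha' c1 hc1 ?_
    filter_upwards [hm] with x hx
    refine hx.trans (le_of_eq (Finset.sum_congr rfl fun n _ => ?_))
    congr 3
    rw [Fintype.sum_sigma]
    refine Finset.sum_congr rfl fun i _ => ?_
    rw [Finset.sum_mul, Finset.sum_mul, Finset.mul_sum]
    refine Finset.sum_congr rfl fun k _ => ?_
    simp only [a']
    push_cast
    ring
  have hsum : ∀ (lam : ι → ℝ) (s : ℂ), 0 < s.re → s.re < 1 →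
      ∑ j : J, (lam j.1 * (m j.1 j.2 : ℝ)) * (mult (F' j) s : ℝ) =
        ∑ i, lam i * (od (L i) (s + I * τ i) : ℝ) := by
    intro lam s h0 h1
    rw [Fintype.sum_sigma]
    refine Finset.sum_congr rfl fun i _ => ?_
    rw [hord i _ (by rw [hre]; exact h0) (by rw [hre]; exact h1)]
    push_cast
    rw [Finset.mul_sum]
    refine Finset.sum_congr rfl fun k _ => ?_
    rw [hmult]
    ring
  refine ⟨fun lam hlam => ?_, fun n hn hn0 => ?_⟩
  · obtain ⟨c, hc, h⟩ := part1 lam hlam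
    refine ⟨c, hc, ?_⟩
    filter_upwards [h] with T hT
    refine hT.trans (le_of_eq ?_)
    congr 2
    ext s
    constructor
    · rintro ⟨g1, g2, g3, g4, g5⟩
      refine ⟨⟨g1, g2, g3, g4⟩, ?_⟩
      rw [← hsum lam s g1 g2]
      exact g5
    · rintro ⟨⟨g1, g2, g3, g4⟩, g5⟩
      refine ⟨g1, g2, g3, g4, ?_⟩
      rw [← hsum lam s g1 g2] at g5
      exact g5
  · have hn' : (fun i => (n i : ℝ)) ≠ 0 := by
      intro h
      apply hn
      ext i
      have := congrFun h i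
      simpa using this
    obtain ⟨c, hc, h1⟩ := part1 _ hn'
    have hdeg : ∑ j : J, ((n j.1 * m j.1 j.2 : ℤ) : ℝ) * d' j = 0 := by
      have h2 : ((∑ j : J, ((n j.1 * m j.1 j.2 : ℤ) : ℝ) * d' j : ℝ) : ℂ) = 0 := by
        rw [← hn0, Fintype.sum_sigma, Complex.ofReal_sum]
        refine Finset.sum_congr rfl fun i _ => ?_
        rw [← (hD i).deg, Complex.ofReal_sum, Complex.ofReal_sum, Finset.mul_sum]
        refine Finset.sum_congr rfl fun k _ => ?_
        simp only [d']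
        push_cast
        ring
      exact_mod_cast h2
    obtain ⟨c', hc', h2⟩ := quo2 (ι := J) hA' hgood' (fun j => n j.1 * m j.1 j.2) hdeg
      (fun j => Pool.Agent.Y431.ND.t_NASY _ (A' j) _ _ (hd' j) (hA' j) (hgood' j)) hc (by
        filter_upwards [h1] with T hT
        refine hT.trans (le_of_eq ?_)
        congr 3
        funext j
        push_cast
        rfl)
    refine ⟨c', hc', ?_⟩
    have hnet : ∀ s : ℂ, 0 < s.re → s.re < 1 →
        netM F' (fun j : J => n j.1 * m j.1 j.2) s = ∑ i, n i * od (L i) (s + I * τ i) := by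
      intro s g0 g1
      unfold netM
      rw [Fintype.sum_sigma]
      refine Finset.sum_congr rfl fun i _ => ?_
      rw [hord i _ (by rw [hre]; exact g0) (by rw [hre]; exact g1), Finset.mul_sum]
      refine Finset.sum_congr rfl fun k _ => ?_
      rw [hmult]
      ring
    filter_upwards [h2] with T hT
    obtain ⟨hT1, hT2⟩ := hT
    have e1 : ∑ᶠ s ∈ box T, (netM F' (fun j : J => n j.1 * m j.1 j.2) s).toNat =
        ∑ᶠ s ∈ Box T, (∑ i, n i * od (L i) (s + I * τ i)).toNat :=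
      finsum_mem_congr rfl fun s hs => by rw [hnet s hs.1 hs.2.1]
    have e2 : ∑ᶠ s ∈ box T, (-netM F' (fun j : J => n j.1 * m j.1 j.2) s).toNat =
        ∑ᶠ s ∈ Box T, (-∑ i, n i * od (L i) (s + I * τ i)).toNat :=
      finsum_mem_congr rfl fun s hs => by rw [hnet s hs.1 hs.2.1]
    rw [e1] at hT1
    rw [e2] at hT2
    exact ⟨hT1, hT2⟩

/-- the order of the product -/
lemma od_prodL {ι : Type} [Fintype ι] {χ : ι → (M ≃ₐ[ℚ] M) → ℂ} {L : ι → ℂ → ℂ}
    (hL : ∀ i, Continues (L i) (artinL M (χ i))) (t : ι → ℝ) (n : ι → ℤ) (s : ℂ) :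
    od (prodL L t n) s = ∑ i, n i * od (L i) (s + I * t i) := by
  classical
  have hmer : ∀ i, MeromorphicAt (fun z => L i (z + I * t i)) s := by
    intro i
    have h1 : AnalyticAt ℂ (fun z : ℂ => z + I * t i) s := analyticAt_id.add analyticAt_const
    exact MeromorphicAt.comp_analyticAt (f := L i) (g := fun z : ℂ => z + I * t i)
      ((hL i).1 (s + I * t i) (Set.mem_univ _)) h1
  have hm : ∀ i, meromorphicOrderAt ((fun z => L i (z + I * t i)) ^ n i) s =
      ((n i * od (L i) (s + I * t i) : ℤ) : WithTop ℤ) := by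
    intro i
    have h2 : meromorphicOrderAt (fun z => L i (z + I * t i)) s =
        ((od (L i) (s + I * t i) : ℤ) : WithTop ℤ) := by
      rw [mord_tr]
      exact (WithTop.coe_untop₀_of_ne_top
        ((hL i).order_ne_top (fun z _ => artinL_ne_zero _ z) _)).symm
    rw [meromorphicOrderAt_zpow (hmer i), h2]
    rfl
  have e1 : prodL L t n = ∏ i, ((fun z => L i (z + I * t i)) ^ n i) := by
    ext z
    unfold prodL
    simp
  unfold od
  rw [e1, meromorphicOrderAt_prod fun i _ => (hmer i).zpow (n i),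
    Finset.sum_congr rfl fun i _ => hm i, ← WithTop.coe_sum]
  rfl

/-- **Main theorem**, all real shifts -/
theorem main {ι : Type} [Fintype ι] (χ : ι → (M ≃ₐ[ℚ] M) → ℂ)
    (hχ : ∀ i, χ i ∈ Irr (M ≃ₐ[ℚ] M)) (t : ι → ℝ)
    (hne : ∀ i j, i ≠ j → χ i ≠ χ j ∨ t i ≠ t j) (L : ι → ℂ → ℂ)
    (hL : ∀ i, Continues (L i) (artinL M (χ i))) :
    (∀ lam : ι → ℝ, lam ≠ 0 → ∃ c : ℝ, 0 < c ∧ ∀ᶠ T : ℝ in atTop, c * T * Real.log T ≤
      ({s : ℂ | s ∈ Box T ∧ ∑ i, lam i * (od (L i) (s + I * t i) : ℝ) ≠ 0}.ncard : ℝ)) ∧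
    (∀ n : ι → ℤ, n ≠ 0 → ∑ i, (n i : ℂ) * χ i 1 = 0 → ∃ c : ℝ, 0 < c ∧ ∀ᶠ T : ℝ in atTop,
      c * T * Real.log T ≤ ((∑ᶠ s ∈ Box T, (od (prodL L t n) s).toNat : ℕ) : ℝ) ∧
      c * T * Real.log T ≤ ((∑ᶠ s ∈ Box T, (-od (prodL L t n) s).toNat : ℕ) : ℝ)) := by
  set W : ℝ := ∑ i, |t i| with hW
  have hW0 : 0 ≤ W := Finset.sum_nonneg fun i _ => abs_nonneg _
  have hτ : ∀ i, 0 ≤ t i + W := by
    intro i
    have h1 : |t i| ≤ W := Finset.single_le_sum (fun j _ => abs_nonneg (t j)) (Finset.mem_univ i)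
    have h2 := neg_abs_le (t i)
    linarith
  obtain ⟨h1, h2⟩ := main_nonneg χ hχ (fun i => t i + W) hτ (fun i j hij => by
    rcases hne i j hij with h | h
    · exact Or.inl h
    · exact Or.inr fun h' => h (add_right_cancel h')) L hL
  have hs : ∀ (s : ℂ) i, s + I * ((t i + W : ℝ) : ℂ) = (s + I * W) + I * t i := by
    intro s i
    push_cast
    ring
  refine ⟨fun lam hlam => ?_, fun n hn hn0 => ?_⟩
  · obtain ⟨c, hc, h⟩ := h1 lam hlam
    refine ⟨c / 4, by positivity, ?_⟩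
    refine tr_card (fun s => ∑ i, lam i * (od (L i) (s + I * t i) : ℝ) ≠ 0) hW0 hc ?_
    filter_upwards [h] with T hT
    refine hT.trans (le_of_eq ?_)
    congr 2
    ext s
    simp only [Set.mem_ofPred_eq, hs]
  · obtain ⟨c, hc, h⟩ := h2 n hn hn0
    refine ⟨c / 4, by positivity, ?_⟩
    simp only [od_prodL hL]
    have g1 := tr_sum (fun s => (∑ i, n i * od (L i) (s + I * t i)).toNat) hW0 hc (by
      filter_upwards [h] with T hT
      refine hT.1.trans (le_of_eq ?_)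
      simp only [hs])
    have g2 := tr_sum (fun s => (-∑ i, n i * od (L i) (s + I * t i)).toNat) hW0 hc (by
      filter_upwards [h] with T hT
      refine hT.2.trans (le_of_eq ?_)
      simp only [hs])
    filter_upwards [g1, g2] with T hT1 hT2
    exact ⟨hT1, hT2⟩

end

end Pool.Agent.H474.ART
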