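import Pool.Agent.H474.ART.Cls
import Pool.Graph.R_pool_sql_team_seeded_1acbe0a2.Y532.ND.Tau

/-!
# Mertens type lower bound for combinations of irreducible characters
-/

set_option autoImplicit false
set_option linter.unusedSectionVars false

open NumberField Complex Filter Topology IsDedekindDomain
open scoped ArithmeticFunction.vonMangoldt

namespace Pool.Agent.H474.ART

open Pool.Agent.Q92.AR Pool.Agent.Q5.BR Pool.Agent.H541R3.ART
open Pool.Agent.Y772.SL (av av_add av_mul av_congr)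
open Pool.Agent.Y772.ND (av_sum norm_nI)

section grp

variable {G : Type} [Group G] [Finite G]

open Classical in
lemma avg_pair {χ χ' : G → ℂ} (hχ : χ ∈ Irr G) (hχ' : χ' ∈ Irr G) :
    avg (fun g => χ g * χ' g⁻¹) = if χ = χ' then 1 else 0 := by
  have : Fintype G := Fintype.ofFinite G
  have hG : (Nat.card G : ℂ) ≠ 0 := by exact_mod_cast Nat.card_pos.ne'
  unfold avg
  rw [finsum_eq_sum_of_fintype]
  split_ifs with h
  · subst h
    rw [pair_self hχ, inv_mul_cancel₀ hG]
  · rw [pair_ne hχ hχ' h, mul_zero]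

lemma irr_bdd {χ : G → ℂ} : ∃ C : ℝ, 0 ≤ C ∧ ∀ g, ‖χ g‖ ≤ C := by
  have : Fintype G := Fintype.ofFinite _
  exact ⟨∑ g, ‖χ g‖, Finset.sum_nonneg fun g _ => norm_nonneg _, fun g =>
    Finset.single_le_sum (f := fun g => ‖χ g‖) (fun g _ => norm_nonneg _) (Finset.mem_univ g)⟩

end grp

section

variable {M : Type} [Field M] [NumberField M] [IsGalois ℚ M]

/-- **Mertens type lower bound** -/
theorem mertens {ι : Type} [Fintype ι] (χ : ι → (M ≃ₐ[ℚ] M) → ℂ)
    (hχ : ∀ i, χ i ∈ Irr (M ≃ₐ[ℚ] M)) (τ : ι → ℝ)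
    (hne : ∀ i j, i ≠ j → χ i ≠ χ j ∨ τ i ≠ τ j)
    (A : ι → ℕ → ℂ) (D₀ : ι → ℝ) (hA : ∀ i n, ‖A i n‖ ≤ D₀ i)
    (S : ι → Finset ℕ) (hS : ∀ i (p : ℕ), p.Prime → p ∉ S i → A i p = χ i (Fr M p))
    (lam : ι → ℝ) (hlam : lam ≠ 0) :
    ∃ c1 : ℝ, 0 < c1 ∧ ∀ᶠ x : ℝ in atTop, c1 * Real.log x ≤
      ∑ n ∈ (Finset.Icc 1 ⌊x⌋₊).filter Nat.Prime,
        ‖∑ i, (lam i : ℂ) * ((A i n * (Λ n : ℂ)) * (n : ℂ) ^ (-(I * (τ i : ℂ))))‖ ^ 2 /
          (n * Real.log n) := by
  classical
  obtain ⟨j, hj⟩ := Function.ne_iff.1 hlam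
  have hj' : lam j ≠ 0 := hj
  set s : ℝ := ((SignType.sign (lam j) : SignType) : ℝ) with hs
  have hsl : s * lam j = |lam j| := sign_mul_self (lam j)
  have hs1 : |s| ≤ 1 := by
    rw [hs]
    rcases lt_trichotomy (lam j) 0 with h | h | h
    · rw [sign_neg h]; simp
    · exact absurd h hj'
    · rw [sign_pos h]; simp
  -- the class functions
  have hcl : ∀ i, Pav (M := M) (fun g => χ i g * χ j g⁻¹) := by
    intro i
    refine Pav.all fun g x => ?_
    have e : (x * g * x⁻¹)⁻¹ = x * g⁻¹ * x⁻¹ := by group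
    rw [e, Irr.conj (hχ i), Irr.conj (hχ j)]
  choose u B hB hup hl1 hl2 using fun i => hcl i (τ i - τ j)
  choose S' hS' using hup
  have h2 := av_sum (Finset.univ : Finset ι)
    (fun i k => (s * lam i) * (u i k).re)
    (fun i => |s * lam i| * B i) (fun i => (s * lam i) * (if τ i - τ j = 0 then
      (avg fun g => χ i g * χ j g⁻¹).re else 0))
    (fun i _ k => by rw [abs_mul]; exact mul_le_mul_of_nonneg_left ((abs_re_le_norm _).trans (hB i k)) (abs_nonneg _))
    (fun i _ => by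
      refine ((hl1 i).const_mul (s * lam i)).congr' ?_
      filter_upwards with x
      rw [av_mul])
  have hL : ∑ i, (s * lam i) * (if τ i - τ j = 0 then
      (avg fun g => χ i g * χ j g⁻¹).re else 0) = |lam j| := by
    rw [Finset.sum_eq_single j]
    · rw [sub_self, if_pos rfl, avg_pair (hχ j) (hχ j), if_pos rfl, one_re, mul_one, hsl]
    · intro i _ hij
      rcases hne i j hij with h | h
      · rw [avg_pair (hχ i) (hχ j), if_neg h]
        simp
      · rw [if_neg (sub_ne_zero.2 h), mul_zero]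
    · intro h; exact absurd (Finset.mem_univ j) h
  -- the two sequences
  obtain ⟨Cj, hCj0, hCj⟩ := irr_bdd (χ := χ j)
  set w : ι → ℕ → ℂ := fun i k => if k = 0 then 0 else (k : ℂ) ^ (-(I * (τ i : ℂ))) with hw
  have hw1 : ∀ i k, ‖w i k‖ ≤ 1 := by
    intro i k
    simp only [hw]
    split_ifs with hk
    · rw [norm_zero]; exact zero_le_one
    · rw [norm_nI k hk]
  set v : ℕ → ℂ := fun k => (s : ℂ) * (χ j (Fr M k)⁻¹ * (starRingEnd ℂ) (w j k)) with hv
  set f : ℕ → ℂ := fun k => ∑ i, (lam i : ℂ) * (A i k * w i k) with hfdef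
  set g : ℕ → ℂ := fun k => (starRingEnd ℂ) (v k) with hgdef
  have hD₀ : ∀ i, 0 ≤ D₀ i := fun i => (norm_nonneg _).trans (hA i 0)
  set Df : ℝ := ∑ i, |lam i| * D₀ i with hDf
  have hDf0 : 0 ≤ Df := Finset.sum_nonneg fun i _ => mul_nonneg (abs_nonneg _) (hD₀ i)
  set D : ℝ := Df + Cj + 1 with hD
  have hfb : ∀ k, ‖f k‖ ≤ Df := by
    intro k
    refine (norm_sum_le _ _).trans ?_
    refine Finset.sum_le_sum fun i _ => ?_
    rw [norm_mul, Complex.norm_real, Real.norm_eq_abs, norm_mul]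
    refine mul_le_mul_of_nonneg_left ?_ (abs_nonneg _)
    calc ‖A i k‖ * ‖w i k‖ ≤ D₀ i * 1 := mul_le_mul (hA i k) (hw1 i k) (norm_nonneg _) (hD₀ i)
      _ = D₀ i := mul_one _
  have hgb : ∀ k, ‖g k‖ ≤ Cj := by
    intro k
    rw [hgdef]
    simp only [hv]
    rw [RCLike.norm_conj, norm_mul, Complex.norm_real, Real.norm_eq_abs, norm_mul, RCLike.norm_conj]
    calc |s| * (‖χ j (Fr M k)⁻¹‖ * ‖w j k‖) ≤ 1 * (Cj * 1) :=
          mul_le_mul hs1 (mul_le_mul (hCj _) (hw1 j k) (norm_nonneg _) hCj0) (by positivity) zero_le_one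
      _ = Cj := by ring
  have hcong := av_congr (u := fun k => (f k * (starRingEnd ℂ) (g k)).re) (A := Df * Cj)
    (fun k => by
      refine (abs_re_le_norm _).trans ?_
      rw [norm_mul, RCLike.norm_conj]
      exact mul_le_mul (hfb k) (hgb k) (norm_nonneg _) hDf0) h2.1
    (Finset.univ.biUnion fun i => S i ∪ S' i) (by
      intro p hp hS0
      have hp0 : (p : ℂ) ≠ 0 := by exact_mod_cast hp.ne_zero
      have hSi : ∀ i, p ∉ S i ∧ p ∉ S' i := by
        intro i
        constructor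
        · intro h
          exact hS0 (Finset.mem_biUnion.2 ⟨i, Finset.mem_univ i, Finset.mem_union_left _ h⟩)
        · intro h
          exact hS0 (Finset.mem_biUnion.2 ⟨i, Finset.mem_univ i, Finset.mem_union_right _ h⟩)
      have hww : ∀ i, w i p * (starRingEnd ℂ) (w j p) = (p : ℂ) ^ (-(I * ((τ i - τ j : ℝ) : ℂ))) := by
        intro i
        simp only [hw, if_neg hp.ne_zero]
        have hc : (starRingEnd ℂ) ((p : ℂ) ^ (-(I * (τ j : ℂ)))) = (p : ℂ) ^ (I * (τ j : ℂ)) := by
          have harg : ((p : ℕ) : ℂ).arg ≠ Real.pi := by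
            rw [Complex.natCast_arg]
            exact Real.pi_pos.ne
          have h5 := Complex.cpow_conj ((p : ℕ) : ℂ) (-(I * (τ j : ℂ))) harg
          rw [Complex.conj_natCast] at h5
          rw [← h5]
          congr 1
          simp
        rw [hc, ← Complex.cpow_add _ _ hp0]
        congr 1
        push_cast; ring
      have e2 : f p * (starRingEnd ℂ) (g p) = ∑ i, ((s * lam i : ℝ) : ℂ) * u i p := by
        simp only [hfdef, hgdef, hv, Complex.conj_conj]
        rw [Finset.sum_mul]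
        refine Finset.sum_congr rfl fun i _ => ?_
        rw [hS' i p hp (hSi i).2, hS i p hp (hSi i).1, ← hww i]
        push_cast; ring
      rw [e2, re_sum]
      refine Finset.sum_congr rfl fun i _ => ?_
      rw [Complex.re_ofReal_mul]) h2.2
  rw [hL] at hcong
  have hpos : 0 < |lam j| := abs_pos.2 hj'
  have hev := hcong.eventually_const_lt (u := |lam j| / 2) (by linarith)
  obtain ⟨c1, hc1, h3⟩ := Pool.Agent.Y532.ND.t_TAU D (|lam j| / 2) f g (by positivity)
    (by positivity)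
    (fun k => (hfb k).trans (by rw [hD]; linarith)) (fun k => (hgb k).trans (by
      rw [hD]
      linarith)) (by
      filter_upwards [hev] with σ hσ
      exact hσ.le)
  refine ⟨c1, hc1, ?_⟩
  filter_upwards [h3] with x hx
  refine hx.trans (le_of_eq (Finset.sum_congr rfl fun k hk => ?_))
  have hk0 : k ≠ 0 := (Finset.mem_filter.1 hk).2.ne_zero
  congr 2
  simp only [hfdef, hw, if_neg hk0]
  rw [Finset.mul_sum]
  congr 1
  refine Finset.sum_congr rfl fun i _ => by ring

end

end Pool.Agent.H474.ART
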