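import Pool.Agent.H474.ART.Mrt
import Pool.Graph.R_pool_sql_team_seeded_1acbe0a2.Y772.ND.Cor4
import Pool.Graph.R_pool_sql_team_seeded_1acbe0a2.Y772.ND.Quo2
import Pool.Graph.R_pool_sql_team_seeded_1acbe0a2.Y772.ND.Trn
import Pool.Graph.R_pool_sql_team_seeded_1acbe0a2.Y923.ND.Shift
import Pool.Graph.R_pool_sql_team_seeded_1acbe0a2.Y431.ND.Nasy

/-!
# Artin L-functions as products of Hecke L-functions: orders
-/

set_option autoImplicit false
set_option linter.unusedSectionVars false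

open NumberField Complex Filter Topology IsDedekindDomain
open scoped ArithmeticFunction.vonMangoldt

namespace Pool.Agent.H474.ART

open Pool.Agent.Q92.AR Pool.Agent.Q5.BR Pool.Agent.H541R3.ART
open Pool.Agent.Q92.RT (induced)
open H370 (mult)

section

variable {M : Type} [Field M] [NumberField M] [IsGalois ℚ M]

/-- the value of an induced character at `1` -/
lemma induced_one' {G : Type} [Group G] [Finite G] (H : Subgroup G) (ψ : H →* ℂˣ) :
    induced H ψ 1 * (Nat.card H : ℂ) = (Nat.card G : ℂ) := by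
  classical
  have : Fintype G := Fintype.ofFinite G
  have hH : (Nat.card H : ℂ) ≠ 0 := by exact_mod_cast Nat.card_pos.ne'
  unfold Pool.Agent.Q92.RT.induced
  have h1 : ∀ x : G, (if h : x⁻¹ * 1 * x ∈ H then ((ψ ⟨x⁻¹ * 1 * x, h⟩ : ℂˣ) : ℂ) else 0) = 1 := by
    intro x
    have hx : x⁻¹ * 1 * x = 1 := by group
    have hmem : x⁻¹ * 1 * x ∈ H := by rw [hx]; exact H.one_mem
    rw [dif_pos hmem]
    have h2 : (⟨x⁻¹ * 1 * x, hmem⟩ : H) = 1 := Subtype.ext hx
    rw [h2, map_one, Units.val_one]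
  rw [finsum_congr h1, finsum_eq_sum_of_fintype, Finset.sum_const, nsmul_eq_mul, mul_one,
    Finset.card_univ, ← Nat.card_eq_fintype_card]
  field_simp

/-- an irreducible character, its decomposition into induced characters, and the L-functions -/
structure BD (χ : (M ≃ₐ[ℚ] M) → ℂ) (κ : Type) [Fintype κ] (n : κ → ℤ) (d : κ → ℝ) (a : κ → ℕ → ℂ)
    (F : κ → ℂ → ℂ) : Prop where
  d1 : ∀ k, 1 ≤ d k
  deg : ((∑ k, (n k : ℝ) * d k : ℝ) : ℂ) = χ 1
  bd : ∀ k m, ‖a k m‖ ≤ d k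
  pr : ∃ S : Finset ℕ, ∀ p : ℕ, p.Prime → p ∉ S → ∑ k, (n k : ℂ) * a k p = χ (Fr M p)
  good : ∀ k, ∃ A : ℝ, 1 ≤ A ∧ W388.GoodE (d k) A 1 (F k) (fun m => a k m * (Λ m : ℂ))
  ord : ∀ L : ℂ → ℂ, Continues L (artinL M χ) → ∀ s : ℂ, 0 < s.re → s ≠ 1 →
    meromorphicOrderAt L s = ((∑ k, n k * (mult (F k) s : ℤ) : ℤ) : WithTop ℤ)
  ex : ∃ L : ℂ → ℂ, Continues L (artinL M χ)

theorem exists_BD {χ : (M ≃ₐ[ℚ] M) → ℂ} (hχ : χ ∈ Irr (M ≃ₐ[ℚ] M)) :
    ∃ (κ : Type) (_ : Fintype κ) (n : κ → ℤ) (d : κ → ℝ) (a : κ → ℕ → ℂ) (F : κ → ℂ → ℂ),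
      BD χ κ n d a F := by
  classical
  obtain ⟨κ, hκ, H, ψ, n, h⟩ := brauer _ χ hχ
  choose d a F hD using fun k => exists_HD (H k) (ψ k)
  have hfun : χ = fun g => ∑ k, (n k : ℂ) * induced (H k) (ψ k) g := funext h
  choose f hf hford using fun k => (hD k).ord
  have hcont : Continues (fun s => ∏ k, f k s ^ n k) (artinL M χ) := by
    refine ⟨fun s hs => MeromorphicAt.fun_prod fun k _ => ((hf k).1 s hs).fun_zpow _, fun s hs => ?_⟩
    rw [hfun, artinL_sum_int Finset.univ n (fun k => induced (H k) (ψ k)) hs]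
    exact Finset.prod_congr rfl fun k _ => by rw [(hf k).2 s hs]
  refine ⟨κ, hκ, n, d, a, F, ⟨fun k => (hD k).d1, ?_, fun k m => (hD k).bd m, ?_,
    fun k => (hD k).good, fun L hL s hs hs1 => ?_, ⟨_, hcont⟩⟩⟩
  · rw [h 1]
    push_cast
    refine Finset.sum_congr rfl fun k _ => ?_
    congr 1
    have hH : (Nat.card (H k) : ℂ) ≠ 0 := by exact_mod_cast Nat.card_pos.ne'
    have h1 := induced_one' (H k) (ψ k)
    have h2 : ((d k : ℝ) : ℂ) * (Nat.card (H k) : ℂ) = (Nat.card (M ≃ₐ[ℚ] M) : ℂ) := by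
      have := (hD k).deg
      exact_mod_cast this
    exact mul_right_cancel₀ hH (h2.trans h1.symm)
  · choose S hS using fun k => (hD k).pr
    refine ⟨Finset.univ.biUnion S, fun p hp hpS => ?_⟩
    rw [h (Fr M p)]
    refine Finset.sum_congr rfl fun k _ => ?_
    rw [hS k p hp fun h' => hpS (Finset.mem_biUnion.2 ⟨k, Finset.mem_univ k, h'⟩)]
  · rw [hL.order_eq hcont (fun _ _ => rfl) s]
    have hne : ∀ k, meromorphicOrderAt (f k) s ≠ ⊤ := fun k =>
      (hf k).order_ne_top (fun z _ => artinL_ne_zero _ z) s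
    have hs0 : s ≠ 0 := by
      rintro rfl
      simp at hs
    have hm : ∀ k, meromorphicOrderAt ((f k) ^ n k) s =
        ((n k * (mult (F k) s : ℤ) : ℤ) : WithTop ℤ) := by
      intro k
      have han := (hD k).an s hs0 hs1
      have h1 := hne k
      rw [hford k s hs, han.meromorphicOrderAt_eq] at h1
      have h2 : analyticOrderAt (F k) s ≠ ⊤ := by
        intro h3
        apply h1
        rw [h3]
        rfl
      have e : analyticOrderAt (F k) s = ((mult (F k) s : ℕ) : ℕ∞) := (ENat.natCast_toNat h2).symm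
      rw [meromorphicOrderAt_zpow ((hf k).1 s (Set.mem_univ _)), hford k s hs,
        han.meromorphicOrderAt_eq, e]
      simp
    have e1 : (fun s => ∏ k, f k s ^ n k) = ∏ k, ((f k) ^ n k) := by
      ext z
      simp
    rw [e1, meromorphicOrderAt_prod fun k _ => ((hf k).1 s (Set.mem_univ _)).zpow (n k)]
    rw [Finset.sum_congr rfl fun k _ => hm k, ← WithTop.coe_sum]

end

end Pool.Agent.H474.ART
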