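import Pool.Agent.H474.ART.Lim

/-!
# The coefficients at the primes: values of induced characters at Frobenius elements
-/

set_option autoImplicit false
set_option linter.unusedSectionVars false

open NumberField Complex Filter Topology IsDedekindDomain
open scoped ArithmeticFunction.vonMangoldt

namespace Pool.Agent.H474.ART

open Pool.Agent.Y773 (LI cc)
open Pool.Agent.Q92.AR Pool.Agent.Q5.BR
open Pool.Agent.Q92.RT (induced)

lemma absNorm_span_q (p : ℕ) : Ideal.absNorm (Ideal.span {(p : 𝓞 ℚ)}) = p := by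
  have h := Pool.Agent.Y773.absNorm_span_nat (K := ℚ) p
  rw [Module.finrank_self, pow_one] at h
  exact h

/-- the prime of `𝓞 ℚ` above `p` -/
noncomputable def vq (p : ℕ) (hp : p.Prime) : HeightOneSpectrum (𝓞 ℚ) where
  asIdeal := Ideal.span {(p : 𝓞 ℚ)}
  isPrime := by
    refine Ideal.isPrime_of_irreducible_absNorm ?_
    rw [absNorm_span_q]
    exact hp
  ne_bot := by
    rw [Ne, Ideal.span_singleton_eq_bot]
    exact_mod_cast hp.ne_zero

lemma vq_norm (p : ℕ) (hp : p.Prime) : Ideal.absNorm (vq p hp).asIdeal = p := absNorm_span_q p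

lemma eq_vq {p : ℕ} (hp : p.Prime) {v : HeightOneSpectrum (𝓞 ℚ)}
    (h : Ideal.absNorm v.asIdeal = p) : v = vq p hp := by
  apply HeightOneSpectrum.ext
  have h1 : (p : 𝓞 ℚ) ∈ v.asIdeal := by
    rw [← h]
    exact Ideal.absNorm_mem v.asIdeal
  have h2 : (vq p hp).asIdeal ≤ v.asIdeal := by
    change Ideal.span {(p : 𝓞 ℚ)} ≤ _
    rwa [Ideal.span_singleton_le_iff_mem]
  exact ((vq p hp).isMaximal.eq_of_le v.isPrime.ne_top h2).symm

section

variable {E : Type} [Field E] [NumberField E]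

/-- the primes of norm `p` are the primes of degree one above `p` -/
lemma norm_eq_iff {p : ℕ} (hp : p.Prime) (w : HeightOneSpectrum (𝓞 E)) :
    Ideal.absNorm w.asIdeal = p ↔ w ∈ above E (vq p hp) ∧ rdeg ℚ w = 1 := by
  have h := absNorm_rdeg (K := ℚ) w
  have hr := rdeg_pos (K := ℚ) w
  constructor
  · intro hw
    rw [hw] at h
    have h1 : rdeg ℚ w = 1 := by
      have h3 := (Nat.Prime.eq_one_of_pow (x := Ideal.absNorm (w.under (𝓞 ℚ)).asIdeal)
        (n := rdeg ℚ w) (by rw [← h]; exact hp))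
      exact h3
    rw [h1, pow_one] at h
    exact ⟨mem_above.2 (eq_vq hp h.symm), h1⟩
  · rintro ⟨h1, h2⟩
    rw [h, h2, pow_one, mem_above.1 h1, vq_norm]

open Classical in
/-- the coefficient at a prime as a sum over the primes of degree one -/
lemma cc_prime {Ψ : Ideal (𝓞 E) →*₀ ℂ} (hle : ∀ 𝔞, ‖Ψ 𝔞‖ ≤ 1) {p : ℕ} (hp : p.Prime) :
    cc Ψ p = ∑ w ∈ (above E (vq p hp)).filter (fun w => rdeg ℚ w = 1), Ψ w.asIdeal := by
  obtain ⟨A, hA, hDK⟩ := Pool.Agent.Y772.DK.t_dirK E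
  have hv := (hDK Ψ hle).2.2.2.2.2.2.2.1 p hp
  rw [hv]
  have hfin : {𝔭 : Ideal (𝓞 E) | Ideal.absNorm 𝔭 = p}.Finite :=
    Ideal.finite_setOfPred_absNorm_eq (S := 𝓞 E) p
  rw [finsum_mem_eq_finite_toFinset_sum _ hfin]
  symm
  refine Finset.sum_bij (fun w _ => w.asIdeal) ?_ ?_ ?_ ?_
  · intro w hw
    rw [Finset.mem_filter] at hw
    rw [Set.Finite.mem_toFinset]
    exact (norm_eq_iff hp w).2 hw
  · intro w _ w' _ h
    exact HeightOneSpectrum.ext h
  · intro P hP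
    rw [Set.Finite.mem_toFinset] at hP
    have hP' : Ideal.absNorm P = p := hP
    have h1 : P.IsPrime := Ideal.isPrime_of_irreducible_absNorm (by rw [hP']; exact hp)
    have h2 : P ≠ ⊥ := by
      rintro rfl
      rw [Ideal.absNorm_bot] at hP'
      exact hp.ne_zero hP'.symm
    refine ⟨⟨P, h1, h2⟩, ?_, rfl⟩
    rw [Finset.mem_filter]
    exact (norm_eq_iff hp ⟨P, h1, h2⟩).1 hP'
  · intro w _
    rfl

end

section

variable {M : Type} [Field M] [NumberField M]

open Classical in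
/-- a Frobenius element at the prime `p` -/
noncomputable def Fr (M : Type) [Field M] [NumberField M] (p : ℕ) : M ≃ₐ[ℚ] M :=
  if hp : p.Prime then frob M (vq p hp) else 1

lemma Fr_eq {p : ℕ} (hp : p.Prime) : Fr M p = frob M (vq p hp) := dif_pos hp

variable [IsGalois ℚ M]

/-- almost all primes are unramified -/
lemma exists_unr : ∃ S : Finset ℕ, ∀ (p : ℕ) (hp : p.Prime), p ∉ S → Unramified M (vq p hp) := by
  classical
  have h := ramified_finite (K := ℚ) (M := M)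
  refine ⟨h.toFinset.image fun v => Ideal.absNorm v.asIdeal, fun p hp hS => ?_⟩
  by_contra hu
  apply hS
  rw [Finset.mem_image]
  exact ⟨vq p hp, h.mem_toFinset.2 hu, vq_norm p hp⟩

/-- the intermediate field case -/
lemma cc_field {E : Type} [Field E] [NumberField E] [Algebra E M] [IsScalarTower ℚ E M]
    [IsGalois E M] (ψ : fixer ℚ E M →* ℂˣ) (ψ' : (M ≃ₐ[E] M) →* ℂˣ)
    (hψ : ∀ (y : M ≃ₐ[E] M) (hy : y.restrictScalars ℚ ∈ fixer ℚ E M),
      ψ ⟨y.restrictScalars ℚ, hy⟩ = ψ' y)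
    {Ψ : Ideal (𝓞 E) →*₀ ℂ} {F : ℂ → ℂ} (h : Dat ψ' Ψ F) :
    ∃ S : Finset ℕ, ∀ (p : ℕ), p.Prime → p ∉ S →
      cc Ψ p = induced (fixer ℚ E M) ψ (Fr M p) := by
  classical
  obtain ⟨S₀, hS₀⟩ := exists_unr (M := M)
  obtain ⟨N, hN, hfr⟩ := h.frob
  refine ⟨S₀ ∪ N.primeFactors, fun p hp hpS => ?_⟩
  rw [Finset.mem_union, not_or] at hpS
  have hu := hS₀ p hp hpS.1
  have hpN : ¬ p ∣ N := fun hd => hpS.2 (Nat.mem_primeFactors.2 ⟨hp, hd, hN⟩)
  rw [Fr_eq hp, cc_prime h.le hp]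
  have h1 := induced_frob (F := E) hu (frob_spec (vq p hp)) ψ ψ' hψ 1
  rw [pow_one] at h1
  rw [h1, Finset.sum_filter]
  refine Finset.sum_congr rfl fun w hw => ?_
  by_cases h2 : rdeg ℚ w = 1
  · have h3 : rdeg ℚ w ∣ 1 := by rw [h2]
    rw [if_pos h2, if_pos h3, h2, Nat.cast_one, one_mul, Nat.div_one, pow_one]
    apply hfr
    intro hm
    have h4 : (p : 𝓞 E) ∈ w.asIdeal := by
      have h5 := (norm_eq_iff hp w).2 ⟨hw, h2⟩
      rw [← h5]
      exact Ideal.absNorm_mem w.asIdeal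
    have hcop : Nat.Coprime p N := (Nat.Prime.coprime_iff_not_dvd hp).2 hpN
    have h6 := Nat.isCoprime_iff_coprime.2 hcop
    obtain ⟨a, b, hab⟩ := h6
    have h7 : (1 : 𝓞 E) ∈ w.asIdeal := by
      have h8 : (1 : 𝓞 E) = (a : 𝓞 E) * (p : 𝓞 E) + (b : 𝓞 E) * (N : 𝓞 E) := by
        have := congrArg (fun z : ℤ => (z : 𝓞 E)) hab
        push_cast at this
        exact this.symm
      rw [h8]
      exact w.asIdeal.add_mem (w.asIdeal.mul_mem_left _ h4) (w.asIdeal.mul_mem_left _ hm)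
    exact w.isPrime.ne_top ((Ideal.eq_top_iff_one _).2 h7)
  · rw [if_neg h2, if_neg]
    intro h3
    exact h2 (Nat.dvd_one.1 h3)

end

end Pool.Agent.H474.ART
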