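import Pool.Graph.R_pool_sql_team_seeded_1acbe0a2.Y772.ND.Zet3
import Pool.Graph.R_seed8.Y773.AB.Res

/-!
# L-functions of everywhere unramified characters (possibly trivial) satisfy the analytic hypotheses

Adapted from `Y772/ND/Zet*.lean` (helper772), which treat the trivial character.
-/

set_option autoImplicit false

open NumberField Complex Filter Topology Ideal Set Asymptotics
open scoped ArithmeticFunction.vonMangoldt

namespace Pool.Agent.H474.ART

open Pool.Agent.Y773.G (sg ex ex_le differentiable_gam gam_ne_zero gam_ne_zero' card_emb)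
open Pool.Agent.Y773 (LI cc FEd GG)
open Pool.Agent.Y772.FE
open H370.DL (refl hasDerivAt_refl analyticAt_refl im_osc re_osc eventually_im_ne order_refl
  logDeriv_Gammaℝ_bound)
open Pool.Agent.Y772.ND (gs gs_ne gs_diff gs_refl gs_norm norm_le_add_three pz pz_ne pz_deriv pz_log pz_refl)

variable {K : Type} [Field K] [NumberField K]

/-- the completed function and its consequences -/
structure CU (ψ : Ideal (𝓞 K) →*₀ ℂ) (R : ℝ) (e : (K →+* ℂ) → ℕ) (H : ℂ → ℂ) : Prop where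
  diff : Differentiable ℂ H
  fed : FEd R e (fun s => H s * gs s)
  bd : ∃ C : ℝ, 0 ≤ C ∧ ∀ s : ℂ, -1 / 2 ≤ s.re → s.re ≤ 3 / 2 → 1 ≤ |s.im| →
    ‖GG R e s * H s‖ ≤ C * (1 + ‖s‖) ^ 2
  right : ∀ s : ℂ, 1 < s.re → H s = s * (s - 1) * LI ψ s

theorem cu_exists (hU : Pool.Agent.Y149.AR.S_UNR) {e₀ : InfinitePlace K → ℕ}
    {ψ : Ideal (𝓞 K) →*₀ ℂ} (hψ : Pool.Agent.Y149.AR.IsUnr e₀ ψ) :
    ∃ H : ℂ → ℂ, CU ψ ((Ideal.absNorm (differentIdeal ℤ (𝓞 K)) : ℕ) : ℝ) (ex e₀) H := by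
  classical
  have hle := Pool.Agent.Y773.G.H759.unr_norm_le hψ
  obtain ⟨Ξ, w, hΞ, hΞs, hfe, hbd⟩ := hU K e₀ ψ hψ
  have h𝔡 : differentIdeal ℤ (𝓞 K) ≠ ⊥ := differentIdeal_ne_bot
  set R : ℝ := ((Ideal.absNorm (differentIdeal ℤ (𝓞 K)) : ℕ) : ℝ) with hR
  set e : (K →+* ℂ) → ℕ := ex e₀ with he
  have hR1 : 1 ≤ R := by
    rw [hR]
    exact_mod_cast Nat.one_le_iff_ne_zero.mpr fun h1 => h𝔡 (Ideal.absNorm_eq_zero_iff.mp h1)
  have hR0 : 0 < R := by linarith
  have hRc : (R : ℂ) ≠ 0 := by exact_mod_cast hR0.ne'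
  have hRp : ∀ z : ℂ, (R : ℂ) ^ z ≠ 0 := cpow_R_ne hR0
  set H : ℂ → ℂ := fun s => Ξ s * ((R : ℂ) ^ (-(s / 2))) * ∏ φ : K →+* ℂ, (Complex.Gammaℝ (s + e φ))⁻¹
    with hH
  have hHd : Differentiable ℂ H := by
    refine (hΞ.mul ?_).mul (differentiable_gam e)
    intro z
    exact DifferentiableAt.const_cpow (by fun_prop) (Or.inl hRc)
  have hinv : ∀ s : ℂ, (R : ℂ) ^ (s / 2) * (R : ℂ) ^ (-(s / 2)) = 1 := by
    intro s
    rw [← Complex.cpow_add _ _ hRc, add_neg_cancel, Complex.cpow_zero]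
  have hGH : ∀ s : ℂ, ∏ φ : K →+* ℂ, Complex.Gammaℝ (s + e φ) ≠ 0 → GG R e s * H s = Ξ s := by
    intro s hs
    rw [hH]
    unfold GG
    simp only
    rw [Finset.prod_inv_distrib]
    have h1 := hinv s
    calc (R : ℂ) ^ (s / 2) * (∏ φ : K →+* ℂ, Complex.Gammaℝ (s + e φ)) *
          (Ξ s * (R : ℂ) ^ (-(s / 2)) * (∏ φ : K →+* ℂ, Complex.Gammaℝ (s + e φ))⁻¹)
        = Ξ s * ((R : ℂ) ^ (s / 2) * (R : ℂ) ^ (-(s / 2))) *
          ((∏ φ : K →+* ℂ, Complex.Gammaℝ (s + e φ)) * (∏ φ : K →+* ℂ, Complex.Gammaℝ (s + e φ))⁻¹) := by ring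
      _ = Ξ s := by rw [h1, mul_inv_cancel₀ hs, mul_one, mul_one]
  have hGne : ∀ s : ℂ, ∏ φ : K →+* ℂ, Complex.Gammaℝ (s + e φ) ≠ 0 → GG R e s ≠ 0 := by
    intro s hs
    unfold GG
    exact mul_ne_zero (hRp _) hs
  have hright : ∀ s : ℂ, 1 < s.re → H s = s * (s - 1) * LI ψ s := by
    intro s hs
    have h0 := gam_ne_zero e (s := s) (by linarith)
    have h1 := hGH s h0
    rw [hΞs s hs] at h1
    have h2 := hGne s h0
    have h3 : GG R e s * H s = GG R e s * (s * (s - 1) * LI ψ s) := by rw [h1]; ring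
    exact mul_left_cancel₀ h2 h3
  obtain ⟨A', -, hdir⟩ := Pool.Agent.Y772.DK.t_dirK K
  have hw1 : ‖w‖ = 1 := by
    have hX2 : Ξ 2 ≠ 0 := by
      have h5 : (1 : ℝ) < (2 : ℂ).re := by norm_num
      rw [hΞs 2 h5]
      have h6 := (hdir ψ hle).2.2.1 2 h5
      exact mul_ne_zero (by norm_num) (mul_ne_zero (hGne 2 (gam_ne_zero e (by norm_num))) h6)
    have h5 := hfe 2
    have h6 := hfe (1 - (starRingEnd ℂ) 2)
    rw [h6, map_mul] at h5
    have h7 : 1 - (starRingEnd ℂ) (1 - (starRingEnd ℂ) (2 : ℂ)) = 2 := by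
      rw [map_sub, map_one, Complex.conj_conj]
      ring
    rw [h7, Complex.conj_conj] at h5
    have h8 : w * (starRingEnd ℂ) w = 1 := by
      have : (w * (starRingEnd ℂ) w) * Ξ 2 = 1 * Ξ 2 := by linear_combination -h5
      exact mul_right_cancel₀ hX2 this
    rw [Complex.mul_conj, Complex.normSq_eq_norm_sq] at h8
    have h9 : ‖w‖ ^ 2 = 1 := by exact_mod_cast h8
    have := norm_nonneg w
    nlinarith
  refine ⟨H, hHd, ⟨ex_le hψ.sig_le, hHd.mul gs_diff, ⟨w, hw1, ?_⟩, ?_⟩, ?_, hright⟩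
  · intro s hs
    have hs' : (1 - (starRingEnd ℂ) s).im ≠ 0 := by simpa using hs
    have h1 := hGH s (gam_ne_zero' e hs)
    have h2 := hGH _ (gam_ne_zero' e hs')
    rw [← mul_assoc, h1, ← mul_assoc, h2, map_mul, gs_refl, hfe s]
    ring
  · intro a b
    obtain ⟨C, hC⟩ := hbd a b
    set M : ℝ := |a| + |b| with hM
    have hC0 : 0 ≤ |C| := abs_nonneg _
    refine ⟨|C| * (4 * (1 + M) ^ 2 + 4) * Real.exp ((M + 1) ^ 2), fun s h1 h2 h3 => ?_⟩
    have him : s.im ≠ 0 := by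
      intro h0
      rw [h0, abs_zero] at h3
      linarith
    have e1 := hGH s (gam_ne_zero' e him)
    have e2 : GG R e s * (H s * gs s) = Ξ s * gs s := by rw [← mul_assoc, e1]
    rw [e2, norm_mul, gs_norm]
    have hre : |s.re| ≤ M := by
      rw [abs_le, hM]
      constructor
      · have := neg_abs_le a
        have := abs_nonneg b
        linarith
      · have := le_abs_self b
        have := abs_nonneg a
        linarith
    have hM0 : 0 ≤ M := (abs_nonneg _).trans hre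
    have hns : ‖s‖ ≤ M + |s.im| := (Complex.norm_le_abs_re_add_abs_im s).trans (by linarith)
    have e3 := hC s h1 h2
    have e4 : ‖Ξ s‖ ≤ |C| * (1 + M + |s.im|) ^ 2 := by
      refine e3.trans ?_
      have h5 : (1 + ‖s‖) ^ 2 ≤ (1 + M + |s.im|) ^ 2 :=
        pow_le_pow_left₀ (by positivity) (by linarith) 2
      exact (mul_le_mul_of_nonneg_right (le_abs_self C) (by positivity)).trans
        (mul_le_mul_of_nonneg_left h5 hC0)
    have e5 : Real.exp ((s.re - 1 / 2) ^ 2 - s.im ^ 2) ≤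
        Real.exp ((M + 1) ^ 2) * Real.exp (-s.im ^ 2) := by
      rw [← Real.exp_add]
      apply Real.exp_le_exp.2
      have h6 : (s.re - 1 / 2) ^ 2 ≤ (M + 1) ^ 2 := by
        rw [sq_le_sq, abs_of_nonneg (by linarith : 0 ≤ M + 1)]
        have := abs_sub s.re (1 / 2)
        have h7 : |(1 / 2 : ℝ)| = 1 / 2 := abs_of_pos (by norm_num)
        rw [h7] at this
        linarith
      linarith
    have e6 : (1 + M + |s.im|) ^ 2 * Real.exp (-s.im ^ 2) ≤ 4 * (1 + M) ^ 2 + 4 := by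
      have h8 : (1 + M + |s.im|) ^ 2 ≤ 2 * (1 + M) ^ 2 + 2 * s.im ^ 2 := by
        have : |s.im| ^ 2 = s.im ^ 2 := sq_abs _
        nlinarith [sq_nonneg (1 + M - |s.im|)]
      have h9 : s.im ^ 2 * Real.exp (-s.im ^ 2) ≤ 1 := by
        rw [Real.exp_neg, mul_inv_le_iff₀ (Real.exp_pos _), one_mul]
        linarith [Real.add_one_le_exp (s.im ^ 2)]
      have h10 : Real.exp (-s.im ^ 2) ≤ 1 := by
        rw [Real.exp_le_one_iff]
        nlinarith [sq_nonneg s.im]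
      have h11 : 0 ≤ (1 + M) ^ 2 := by positivity
      have h12 := Real.exp_pos (-s.im ^ 2)
      nlinarith [mul_le_mul_of_nonneg_right h8 h12.le]
    calc ‖Ξ s‖ * Real.exp ((s.re - 1 / 2) ^ 2 - s.im ^ 2)
        ≤ (|C| * (1 + M + |s.im|) ^ 2) * (Real.exp ((M + 1) ^ 2) * Real.exp (-s.im ^ 2)) := by
          gcongr
      _ = |C| * ((1 + M + |s.im|) ^ 2 * Real.exp (-s.im ^ 2)) * Real.exp ((M + 1) ^ 2) := by ring
      _ ≤ |C| * (4 * (1 + M) ^ 2 + 4) * Real.exp ((M + 1) ^ 2) := by gcongr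
  · obtain ⟨C, hC⟩ := hbd (-1 / 2) (3 / 2)
    refine ⟨|C|, abs_nonneg _, fun s h1 h2 h3 => ?_⟩
    have him : s.im ≠ 0 := by
      intro h0
      rw [h0, abs_zero] at h3
      linarith
    rw [hGH s (gam_ne_zero' e him)]
    exact (hC s h1 h2).trans (mul_le_mul_of_nonneg_right (le_abs_self C) (by positivity))

lemma CU.asym {ψ : Ideal (𝓞 K) →*₀ ℂ} {R : ℝ} (hR : 0 < R) {e : (K →+* ℂ) → ℕ} {H : ℂ → ℂ}
    (h : CU ψ R e H) :
    ∃ w : ℂ, ‖w‖ = 1 ∧ ∀ z : ℂ, z.im ≠ 0 → H z = LX w R e z * refl H z := by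
  obtain ⟨w, hw, hfe⟩ := fe_asym hR h.fed
  refine ⟨w, hw, fun z hz => ?_⟩
  have h1 := hfe z hz
  have h2 : refl (fun s => H s * gs s) z = refl H z * gs z := by
    unfold H370.DL.refl
    rw [map_mul, gs_refl]
  rw [h2] at h1
  exact mul_right_cancel₀ (gs_ne z) (by rw [h1]; ring)

/-- the growth in the strip -/
theorem CU.growth {ψ : Ideal (𝓞 K) →*₀ ℂ} {R B : ℝ} (hR1 : 1 ≤ R) {e : (K →+* ℂ) → ℕ} {H : ℂ → ℂ}
    (h : CU ψ R e H)
    (hB0 : 0 ≤ B) (hB : ∀ s : ℂ, s.re = 3 / 2 → ‖H s‖ ≤ B * (‖s‖ * ‖1 - s‖)) (s : ℂ) (h1 : -1 / 2 ≤ s.re)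
    (h2 : s.re ≤ 3 / 2) : ‖H s * ((s + 3) ^ (Fintype.card (K →+* ℂ) + 2))⁻¹‖ ≤ B * R := by
  set d := Fintype.card (K →+* ℂ) with hd
  have hR : 0 < R := by linarith
  obtain ⟨w, hw, hfe⟩ := h.asym hR
  have hs3 : ∀ z : ℂ, ‖((z + 3) ^ (d + 2))⁻¹‖ = (‖z + 3‖ ^ (d + 2))⁻¹ := by
    intro z; rw [norm_inv, norm_pow]
  have hleft : ∀ z : ℂ, z.re = -1 / 2 → ‖H z‖ ≤ B * R * ‖z + 3‖ ^ (d + 2) := by
    have key : ∀ z : ℂ, z.re = -1 / 2 → z.im ≠ 0 → ‖H z‖ ≤ B * R * ‖z + 3‖ ^ (d + 2) := by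
      intro z hz him
      rw [hfe z him, norm_mul]
      have e1 := norm_LX hw hR h.fed.he hz him
      obtain ⟨n1, n2, n3⟩ := norm_le_add_three (s := z) (by rw [hz]; norm_num)
      have e2 : ‖refl H z‖ ≤ B * (‖z + 3‖ * ‖z + 3‖) := by
        unfold H370.DL.refl
        rw [RCLike.norm_conj]
        refine (hB _ (by rw [re_osc, hz]; norm_num)).trans ?_
        refine mul_le_mul_of_nonneg_left ?_ hB0
        have e3 : ‖1 - (starRingEnd ℂ) z‖ = ‖1 - z‖ := by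
          rw [← RCLike.norm_conj (1 - (starRingEnd ℂ) z), map_sub, map_one, Complex.conj_conj]
        have e4 : ‖1 - (1 - (starRingEnd ℂ) z)‖ = ‖z‖ := by
          rw [sub_sub_cancel, RCLike.norm_conj]
        rw [e3, e4]
        exact mul_le_mul n2 n1 (norm_nonneg _) (norm_nonneg _)
      calc ‖LX w R e z‖ * ‖refl H z‖ ≤ (R * ‖z + 3‖ ^ d) * (B * (‖z + 3‖ * ‖z + 3‖)) := by
            rw [← hd] at e1
            gcongr
        _ = _ := by ring
    intro s hs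
    have hsv : s = ((-1 / 2 : ℝ) : ℂ) + (s.im : ℂ) * I := by
      apply Complex.ext
      · simp [hs]
      · simp
    have hcont : Continuous H := h.diff.continuous
    have g1 : Continuous (fun t : ℝ => ‖H (((-1 / 2 : ℝ) : ℂ) + (t : ℂ) * I)‖) := by fun_prop
    have g2 : Continuous (fun t : ℝ => B * R *
        ‖((-1 / 2 : ℝ) : ℂ) + (t : ℂ) * I + 3‖ ^ (d + 2)) := by fun_prop
    have g3 : ∀ t ∈ closure ({0}ᶜ : Set ℝ), ‖H (((-1 / 2 : ℝ) : ℂ) + (t : ℂ) * I)‖ ≤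
        B * R * ‖((-1 / 2 : ℝ) : ℂ) + (t : ℂ) * I + 3‖ ^ (d + 2) := by
      intro t ht
      refine closure_minimal ?_ (isClosed_le g1 g2) ht
      intro t ht
      have him : (((-1 / 2 : ℝ) : ℂ) + (t : ℂ) * I).im = t := by simp
      have hre : (((-1 / 2 : ℝ) : ℂ) + (t : ℂ) * I).re = -1 / 2 := by simp
      exact key (((-1 / 2 : ℝ) : ℂ) + (t : ℂ) * I) hre (by rw [him]; exact ht)
    have g4 : closure ({0}ᶜ : Set ℝ) = univ := by
      rw [closure_compl_singleton]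
    have g5 := g3 s.im (by rw [g4]; trivial)
    rwa [← hsv] at g5
  refine PhragmenLindelof.vertical_strip (f := fun s => H s * ((s + 3) ^ (d + 2))⁻¹)
    (a := -1 / 2) (b := 3 / 2) ?_ ?_ ?_ ?_ h1 h2
  · have hdd : DifferentiableOn ℂ (fun s => H s * ((s + 3) ^ (d + 2))⁻¹) {z : ℂ | -3 < z.re} := by
      intro z hz
      have hz3 : (z + 3) ^ (d + 2) ≠ 0 := pow_ne_zero _ (sp3_ne hz)
      apply DifferentiableAt.differentiableWithinAt
      exact (h.diff z).mul (DifferentiableAt.inv (by fun_prop) hz3)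
    apply DifferentiableOn.diffContOnCl
    apply hdd.mono
    refine (Complex.continuous_re.closure_preimage_subset _).trans ?_
    intro z hz
    have hz' : z.re ∈ closure (Ioo (-1 / 2 : ℝ) (3 / 2)) := hz
    rw [closure_Ioo (by norm_num)] at hz'
    have := hz'.1
    change -3 < z.re
    linarith
  · obtain ⟨M, hM0, hM⟩ := inv_GG_le hR h.fed.he
    obtain ⟨C, hC0, hC'⟩ := h.bd
    refine ⟨1, ?_, d * Real.pi, ?_⟩
    · rw [show ((3 : ℝ) / 2 - -1 / 2) = 2 by norm_num]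
      linarith [Real.pi_gt_three]
    refine IsBigO.of_bound (M * (C * 4)) ?_
    rw [eventually_inf_principal]
    have hev : ∀ᶠ z : ℂ in comap (abs ∘ Complex.im) atTop, 2 ≤ |z.im| :=
      (eventually_ge_atTop (2 : ℝ)).comap (abs ∘ Complex.im)
    filter_upwards [hev] with z hz1 hz2
    have hz2' : z.re ∈ Ioo (-1 / 2 : ℝ) (3 / 2) := hz2
    have e1 := hM z hz2'.1.le hz2'.2.le hz1
    have e2 := hC' z hz2'.1.le hz2'.2.le (by linarith)
    have hz0 : z.im ≠ 0 := by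
      intro h; rw [h, abs_zero] at hz1; linarith
    have hg := GG_ne hR e hz0
    obtain ⟨n1, n2, n3⟩ := norm_le_add_three (s := z) (by linarith [hz2'.1])
    have e5 : (1 + ‖z‖) ^ 2 * (‖z + 3‖ ^ (d + 2))⁻¹ ≤ 4 := by
      rw [mul_inv_le_iff₀ (by positivity)]
      have h5 : (1 + ‖z‖) ^ 2 ≤ (2 * ‖z + 3‖) ^ 2 := pow_le_pow_left₀ (by positivity) (by linarith) 2
      have h6 : ‖z + 3‖ ^ 2 ≤ ‖z + 3‖ ^ (d + 2) := pow_le_pow_right₀ n3 (by omega)
      nlinarith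
    have e7 : H z = (GG R e z)⁻¹ * (GG R e z * H z) := by
      rw [← mul_assoc, inv_mul_cancel₀ hg, one_mul]
    rw [norm_mul, hs3, e7, norm_mul, Real.norm_eq_abs, abs_of_pos (Real.exp_pos _)]
    have e6 : Real.exp (d * Real.pi * |z.im|) ≤ Real.exp (d * Real.pi * Real.exp (1 * |z.im|)) := by
      apply Real.exp_le_exp.mpr
      apply mul_le_mul_of_nonneg_left _ (by positivity)
      rw [one_mul]
      linarith [Real.add_one_le_exp |z.im|]
    have hE := (Real.exp_pos (d * Real.pi * |z.im|)).le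
    rw [← hd] at e1
    calc ‖(GG R e z)⁻¹‖ * ‖GG R e z * H z‖ * (‖z + 3‖ ^ (d + 2))⁻¹
        ≤ (M * Real.exp (d * Real.pi * |z.im|)) * (C * (1 + ‖z‖) ^ 2) * (‖z + 3‖ ^ (d + 2))⁻¹ := by
          gcongr
      _ = (M * Real.exp (d * Real.pi * |z.im|)) * (C * ((1 + ‖z‖) ^ 2 * (‖z + 3‖ ^ (d + 2))⁻¹)) := by ring
      _ ≤ (M * Real.exp (d * Real.pi * |z.im|)) * (C * 4) := by gcongr
      _ = M * (C * 4) * Real.exp (d * Real.pi * |z.im|) := by ring
      _ ≤ M * (C * 4) * Real.exp (d * Real.pi * Real.exp (1 * |z.im|)) := by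
          apply mul_le_mul_of_nonneg_left e6
          positivity
  · intro z hz
    have e1 := hleft z hz
    obtain ⟨-, -, n3⟩ := norm_le_add_three (s := z) (by rw [hz]; norm_num)
    rw [norm_mul, hs3, mul_inv_le_iff₀ (by positivity)]
    exact e1
  · intro z hz
    have e1 := hB z hz
    obtain ⟨n1, n2, n3⟩ := norm_le_add_three (s := z) (by rw [hz]; norm_num)
    rw [norm_mul, hs3, mul_inv_le_iff₀ (by positivity)]
    have h5 : ‖z‖ * ‖1 - z‖ ≤ ‖z + 3‖ * ‖z + 3‖ := mul_le_mul n1 n2 (norm_nonneg _) (norm_nonneg _)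
    have h6 : ‖z + 3‖ ^ 2 ≤ ‖z + 3‖ ^ (d + 2) := pow_le_pow_right₀ n3 (by omega)
    have h7 : B * (‖z‖ * ‖1 - z‖) ≤ B * ‖z + 3‖ ^ (d + 2) :=
      mul_le_mul_of_nonneg_left (by nlinarith) hB0
    have h8 : B * ‖z + 3‖ ^ (d + 2) ≤ B * R * ‖z + 3‖ ^ (d + 2) := by
      apply mul_le_mul_of_nonneg_right _ (by positivity)
      nlinarith
    linarith

/-- a character which is unramified at all finite primes has no zero on the line -/
theorem unr_nv {e₀ : InfinitePlace K → ℕ} {ψ : Ideal (𝓞 K) →*₀ ℂ}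
    (h : Pool.Agent.Y149.AR.IsUnr e₀ ψ) {s₀ : ℂ} (hs₀ : s₀.re = 1) {F : ℂ → ℂ}
    (hF : AnalyticAt ℂ F s₀) (hFL : ∀ᶠ s in 𝓝 s₀, 1 < s.re → F s = LI ψ s) : F s₀ ≠ 0 := by
  classical
  have hle := Pool.Agent.Y773.G.H759.unr_norm_le h
  set 𝔪 : Ideal (𝓞 K) := Ideal.span {(2 : 𝓞 K)} with h𝔪
  have hbot : 𝔪 ≠ ⊥ := by
    rw [h𝔪, Ne, Ideal.span_singleton_eq_bot]
    exact two_ne_zero
  have htop : 𝔪 ≠ ⊤ := by
    intro h1
    have h2 := congrArg Ideal.absNorm h1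
    rw [h𝔪, Ideal.absNorm_top] at h2
    have h3 := Pool.Agent.Y773.absNorm_span_nat (K := K) 2
    rw [Nat.cast_ofNat, h2] at h3
    have h4 : 1 < 2 ^ Module.finrank ℚ K := Nat.one_lt_two_pow Module.finrank_pos.ne'
    omega
  have hray : ∀ x : 𝓞 K, x ≠ 0 → x - 1 ∈ 𝔪 → Pool.Agent.Y773.TPos K x →
      Pool.Agent.Y773.AB.res 𝔪 htop ψ (Ideal.span {x}) = 1 := by
    intro x hx hx1 hp
    have h1 : IsCoprime (Ideal.span {x}) 𝔪 := by
      rw [Ideal.isCoprime_iff_exists]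
      exact ⟨x, Ideal.mem_span_singleton_self _, -(x - 1), 𝔪.neg_mem hx1, by ring⟩
    rw [Pool.Agent.Y773.AB.res_cop htop _ h1, h.sig x hx, Pool.Agent.Y773.G.sg_TPos e₀ hx hp]
  obtain ⟨e, he⟩ := Pool.Agent.Y772.G.exists_sig (η := Pool.Agent.Y773.AB.res 𝔪 htop ψ) hbot htop (by
    intro 𝔞 ha
    by_cases hc : IsCoprime 𝔞 𝔪
    · rw [Pool.Agent.Y773.AB.res_cop htop _ hc]
      exact ⟨fun _ => hc, fun _ => h.ne 𝔞 ha⟩
    · rw [Pool.Agent.Y773.AB.res_not htop _ hc]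
      exact ⟨fun h0 => absurd rfl h0, fun h0 => absurd h0 hc⟩) hray
  have h5 := Pool.Agent.Y772.G.nv_tot Pool.Agent.Y773.G.t_ent he hs₀
    (F := fun s => F s * Pool.Agent.Y773.AB.Ef 𝔪 ψ s)
    (hF.mul ((Pool.Agent.Y773.AB.Ef_diff hbot ψ).analyticAt s₀)) (by
      filter_upwards [hFL] with s hs h1
      rw [hs h1, Pool.Agent.Y773.AB.LI_res hbot htop hle h1])
  exact left_ne_zero_of_mul h5

/-- **L-functions of unramified characters satisfy the analytic hypotheses** -/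
theorem good_unr (hU : Pool.Agent.Y149.AR.S_UNR) {e₀ : InfinitePlace K → ℕ}
    {ψ : Ideal (𝓞 K) →*₀ ℂ} (hψ : Pool.Agent.Y149.AR.IsUnr e₀ ψ) :
    ∃ (A : ℝ) (F : ℂ → ℂ), 1 ≤ A ∧ MeromorphicOn F Set.univ ∧
      (∀ s : ℂ, s ≠ 0 → s ≠ 1 → AnalyticAt ℂ F s) ∧
      (∀ s : ℂ, 1 < s.re → F s = LI ψ s) ∧
      W388.GoodE (Module.finrank ℚ K : ℝ) A 1 F (fun n => cc ψ n * (Λ n : ℂ)) := by
  classical
  have hle := Pool.Agent.Y773.G.H759.unr_norm_le hψ
  obtain ⟨H, hCZ⟩ := cu_exists hU hψ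
  have h𝔡 : differentIdeal ℤ (𝓞 K) ≠ ⊥ := differentIdeal_ne_bot
  set R : ℝ := ((Ideal.absNorm (differentIdeal ℤ (𝓞 K)) : ℕ) : ℝ) with hR
  set e : (K →+* ℂ) → ℕ := ex e₀ with he
  have hR1 : 1 ≤ R := by
    rw [hR]
    exact_mod_cast Nat.one_le_iff_ne_zero.mpr fun h1 => h𝔡 (Ideal.absNorm_eq_zero_iff.mp h1)
  have hR0 : 0 < R := by linarith
  obtain ⟨w, hw, hfe⟩ := hCZ.asym hR0
  have hw0 : w ≠ 0 := by
    intro h
    rw [h, norm_zero] at hw
    exact zero_ne_one hw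
  obtain ⟨A₁, hA₁, hdir⟩ := Pool.Agent.Y772.DK.t_dirK K
  obtain ⟨-, hd2, hd3, hd4, hd5, hd6, -, -, hs9, hs10, -⟩ := hdir ψ hle
  obtain ⟨C, hC0, hC⟩ := logDeriv_Gammaℝ_bound
  set d := Fintype.card (K →+* ℂ) with hd
  set F : ℂ → ℂ := fun s => H s / (s * (s - 1)) with hFdef
  have hs1 : ∀ s : ℂ, s.im ≠ 0 → s - 1 ≠ 0 := fun s hs h => hs (by
    have : s = 1 := by linear_combination h
    rw [this, one_im])
  have hs0 : ∀ s : ℂ, s.im ≠ 0 → s ≠ 0 := fun s hs h => hs (by rw [h, zero_im])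
  have hden : Differentiable ℂ fun s : ℂ => s * (s - 1) := by fun_prop
  have hFan : ∀ s : ℂ, s ≠ 0 → s ≠ 1 → AnalyticAt ℂ F s := fun s hs hs' =>
    (hCZ.diff.analyticAt s).div (hden.analyticAt s) (mul_ne_zero hs (sub_ne_zero.2 hs'))
  have hFmer : MeromorphicOn F Set.univ := fun s _ =>
    (hCZ.diff.analyticAt s).meromorphicAt.div (hden.analyticAt s).meromorphicAt
  have hFan' : ∀ s : ℂ, s.im ≠ 0 → AnalyticAt ℂ F s := fun s hs =>
    hFan s (hs0 s hs) fun h => hs (by rw [h, one_im])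
  have hFL : ∀ s : ℂ, 1 < s.re → F s = LI ψ s := by
    intro s hs
    have h1 : s - 1 ≠ 0 := by
      intro h
      have : s = 1 := by linear_combination h
      rw [this, one_re] at hs
      linarith
    have h2 : s ≠ 0 := by
      intro h
      rw [h, zero_re] at hs
      linarith
    rw [hFdef]
    simp only
    rw [hCZ.right s hs, mul_div_cancel_left₀ _ (mul_ne_zero h2 h1)]
  have hHF : ∀ s : ℂ, s.im ≠ 0 → H s = s * (s - 1) * F s := by
    intro s hs
    have h1 := hs1 s hs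
    have h2 := hs0 s hs
    rw [hFdef]
    simp only
    field_simp
  have hH2 : ∀ s : ℂ, s.im ≠ 0 → H s * gs s = pz s * F s := by
    intro s hs
    rw [hHF s hs]
    unfold pz
    ring
  have hnzF : ∀ s : ℂ, 1 ≤ s.re → s.im ≠ 0 → F s ≠ 0 := by
    intro s h1 h2
    rcases h1.lt_or_eq with h3 | h3
    · rw [hFL s h3]
      exact hd3 s h3
    · exact unr_nv hψ h3.symm (hFan' s h2) (Eventually.of_forall hFL)
  have hnzH : ∀ s : ℂ, 1 ≤ s.re → s.im ≠ 0 → H s ≠ 0 := by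
    intro s h1 h2
    rw [hHF s h2]
    exact mul_ne_zero (mul_ne_zero (hs0 s h2) (hs1 s h2)) (hnzF s h1 h2)
  -- growth
  have hB0 : 0 ≤ A₁ := by linarith
  have hBH : ∀ s : ℂ, s.re = 3 / 2 → ‖H s‖ ≤ A₁ * (‖s‖ * ‖1 - s‖) := by
    intro s hs
    rw [hCZ.right s (by rw [hs]; norm_num), norm_mul, norm_mul]
    have h1 := hd5 s (by rw [hs])
    have h2 : ‖s - 1‖ = ‖1 - s‖ := norm_sub_rev _ _
    rw [h2, mul_comm A₁]
    gcongr
  have hgrow := fun s h1 h2 => hCZ.growth hR1 hB0 hBH s h1 h2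
  set A₂ : ℝ := (d + 2) + A₁ * R * 6 ^ (d + 2) + (Real.log R + d * C + d * C) with hA₂
  have hlR : 0 ≤ Real.log R := Real.log_nonneg hR1
  have hdC : 0 ≤ (d : ℝ) * C := mul_nonneg (Nat.cast_nonneg _) hC0
  have hAR : 0 ≤ A₁ * R * 6 ^ (d + 2) := by positivity
  have hd0 : (0 : ℝ) ≤ d := Nat.cast_nonneg d
  have hGrow : ∀ s : ℂ, (1 / 16 : ℝ) ≤ s.re → s.re ≤ 4 → 1 ≤ s.im → ‖F s‖ ≤ A₂ * s.im ^ A₂ := by
    intro s h1 h2 h3
    have him : s.im ≠ 0 := by linarith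
    have hpow : s.im ^ (d + 2) ≤ s.im ^ A₂ := by
      rw [← Real.rpow_natCast]
      apply Real.rpow_le_rpow_of_exponent_le h3
      push_cast
      linarith
    have key : ‖F s‖ ≤ A₁ * R * 6 ^ (d + 2) * s.im ^ (d + 2) := by
      have hone : (1 : ℝ) ≤ s.im ^ (d + 2) := one_le_pow₀ h3
      rcases le_total s.re (3 / 2) with h | h
      · have e1 := hgrow s (by linarith) h
        obtain ⟨-, -, n3⟩ := norm_le_add_three (s := s) (by linarith)
        rw [← hd, norm_mul, norm_inv, norm_pow, mul_inv_le_iff₀ (by positivity)] at e1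
        have e3 : ‖s + 3‖ ^ (d + 2) ≤ (6 * s.im) ^ (d + 2) := by
          apply pow_le_pow_left₀ (norm_nonneg _)
          refine (norm_le_abs_re_add_abs_im _).trans ?_
          have hre' : (s + 3).re = s.re + 3 := by simp
          have him' : (s + 3).im = s.im := by simp
          rw [hre', him', abs_of_nonneg (by linarith), abs_of_nonneg (by linarith)]
          linarith
        have e4 : ‖F s‖ ≤ ‖H s‖ := by
          rw [hHF s him, norm_mul, norm_mul]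
          have g1 : 1 ≤ ‖s‖ := h3.trans ((le_abs_self _).trans (Complex.abs_im_le_norm s))
          have g2 : 1 ≤ ‖s - 1‖ := by
            have := (le_abs_self _).trans (Complex.abs_im_le_norm (s - 1))
            simp only [sub_im, one_im, sub_zero] at this
            linarith
          have g3 : 1 ≤ ‖s‖ * ‖s - 1‖ := one_le_mul_of_one_le_of_one_le g1 g2
          exact le_mul_of_one_le_left (norm_nonneg _) g3
        calc ‖F s‖ ≤ ‖H s‖ := e4
          _ ≤ A₁ * R * ‖s + 3‖ ^ (d + 2) := e1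
          _ ≤ A₁ * R * (6 * s.im) ^ (d + 2) := by gcongr
          _ = _ := by rw [mul_pow]; ring
      · rw [hFL s (by linarith)]
        have e1 := hd5 s h
        have e5 : (1 : ℝ) ≤ 6 ^ (d + 2) := one_le_pow₀ (by norm_num)
        have e6 : A₁ ≤ A₁ * R := by nlinarith
        have e7 : A₁ * R ≤ A₁ * R * 6 ^ (d + 2) := le_mul_of_one_le_right (by positivity) e5
        have e8 : A₁ * R * 6 ^ (d + 2) ≤ A₁ * R * 6 ^ (d + 2) * s.im ^ (d + 2) :=
          le_mul_of_one_le_right hAR hone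
        linarith
    have hle : A₁ * R * 6 ^ (d + 2) ≤ A₂ := by linarith
    have hp0 : 0 ≤ s.im ^ (d + 2) := by positivity
    calc ‖F s‖ ≤ A₁ * R * 6 ^ (d + 2) * s.im ^ (d + 2) := key
      _ ≤ A₂ * s.im ^ A₂ := mul_le_mul hle hpow hp0 (by linarith)
  have hcard : (Fintype.card (K →+* ℂ) : ℝ) = (Module.finrank ℚ K : ℝ) := by
    rw [card_emb]
  have hnorm' : ∀ n : ℕ, ‖cc ψ n * (Λ n : ℂ)‖ * (n : ℝ) ^ (-(3 / 2) : ℝ) =
      ArithmeticFunction.vonMangoldt n * ‖cc ψ n‖ * (n : ℝ) ^ (-(3 / 2) : ℝ) := by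
    intro n
    rw [norm_mul, Complex.norm_real, Real.norm_of_nonneg ArithmeticFunction.vonMangoldt_nonneg,
      mul_comm ‖cc ψ n‖]
  have hsum : Summable fun n : ℕ => ‖cc ψ n * (Λ n : ℂ)‖ * (n : ℝ) ^ (-(3 / 2) : ℝ) :=
    hs9.congr fun n => (hnorm' n).symm
  -- order of vanishing
  have hordF : ∀ s : ℂ, s.im ≠ 0 → analyticOrderAt F s = analyticOrderAt H s := by
    intro s hs
    have e1 : H =ᶠ[𝓝 s] (fun z => z * (z - 1)) * F := by
      filter_upwards [eventually_im_ne hs] with z hz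
      exact hHF z hz
    have ha : AnalyticAt ℂ (fun z : ℂ => z * (z - 1)) s := by fun_prop
    rw [analyticOrderAt_congr e1, analyticOrderAt_mul ha (hFan' s hs),
      ha.analyticOrderAt_eq_zero.mpr (mul_ne_zero (hs0 s hs) (hs1 s hs)), zero_add]
  refine ⟨max A₁ A₂, F, le_max_of_le_left hA₁, hFmer, hFan, hFL, ?_⟩
  refine
    { an := fun s hs => hFan' s hs.ne'
      growth := ?_
      lower := ?_
      nzr := fun s h1 h2 => hnzF s h1 (by linarith)
      nzl := ?_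
      symm := ?_
      ha1 := ?_
      has := hsum
      ha := ?_
      ld := ?_
      left := ?_ }
  · intro s h1 h2 h3
    refine (hGrow s h1 h2 h3).trans ?_
    have h5 : A₂ ≤ max A₁ A₂ := le_max_right _ _
    have hA20 : 0 ≤ A₂ := by linarith
    rw [one_mul]
    gcongr
  · intro t ht
    have h1 : (1 : ℝ) < ((⟨2, t⟩ : ℂ)).re := by norm_num
    rw [hFL _ h1]
    refine le_trans ?_ (hd6 (⟨2, t⟩ : ℂ) le_rfl)
    have h5 : A₁ ≤ max A₁ A₂ := le_max_left _ _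
    gcongr
  · intro s h1 h3 h0
    have hs : s.im ≠ 0 := by linarith
    have h4 := hfe s hs
    rw [hHF s hs, h0, mul_zero] at h4
    have h5 : refl H s = 0 := (mul_eq_zero.1 h4.symm).resolve_left (LX_ne hw0 hR0 e hs)
    unfold H370.DL.refl at h5
    rw [map_eq_zero] at h5
    exact hnzH _ (by rw [re_osc]; linarith) (by rw [im_osc]; exact hs) h5
  · intro s _ _ h3
    have hs : s.im ≠ 0 := by linarith
    have hs' : (1 - (starRingEnd ℂ) s).im ≠ 0 := by rwa [im_osc]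
    rw [hordF s hs, hordF _ hs']
    have ha : AnalyticAt ℂ H (1 - (starRingEnd ℂ) s) := hCZ.diff.analyticAt _
    have h1 : H =ᶠ[𝓝 s] (LX w R e) * refl H := by
      filter_upwards [eventually_im_ne hs] with z hz
      exact hfe z hz
    have hX := LX_an w hR0 e hs
    rw [analyticOrderAt_congr h1, analyticOrderAt_mul hX (analyticAt_refl ha),
      hX.analyticOrderAt_eq_zero.mpr (LX_ne hw0 hR0 e hs), zero_add, order_refl ha]
  · intro n hn
    interval_cases n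
    · simp
    · simp
  · refine le_trans (le_of_eq ?_) (hs10.trans (le_max_left _ _))
    exact tsum_congr hnorm'
  · intro s hs _
    have h1 : F =ᶠ[𝓝 s] LI ψ := by
      have : {s : ℂ | 1 < s.re} ∈ 𝓝 s :=
        (isOpen_lt continuous_const Complex.continuous_re).mem_nhds hs
      filter_upwards [this] with z hz using hFL z hz
    rw [h1.deriv_eq, hFL s hs, hd4 s hs]
  · intro s h1 h2 h3 h4
    have hs : s.im ≠ 0 := by linarith
    have hs' : (1 - (starRingEnd ℂ) s).im ≠ 0 := by rwa [im_osc]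
    set H₂ : ℂ → ℂ := fun s => H s * gs s with hH₂
    have hfed : FEd (R * (1 : ℝ) ^ Fintype.card (K →+* ℂ)) e H₂ := by
      rw [one_pow, mul_one]; exact hCZ.fed
    have hH₂s : H₂ s ≠ 0 := by
      rw [hH₂]
      simp only
      rw [hH2 s hs]
      exact mul_ne_zero (pz_ne hs) h4
    have h5 := F_left hC hR1 (le_refl (1 : ℝ)) hfed s h1 h2 h3 hH₂s
    have hF' : F (1 - (starRingEnd ℂ) s) ≠ 0 := by
      intro h0
      apply h4
      have h6 := hfe s hs
      have h7 : refl H s = 0 := by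
        unfold H370.DL.refl
        rw [hHF _ hs', h0, mul_zero, map_zero]
      rw [h7, mul_zero, hHF s hs] at h6
      exact (mul_eq_zero.1 h6).resolve_left (mul_ne_zero (hs0 s hs) (hs1 s hs))
    have hlog : ∀ z : ℂ, z.im ≠ 0 → F z ≠ 0 → deriv H₂ z / H₂ z = deriv pz z / pz z + deriv F z / F z := by
      intro z hz hFz
      have e1 : H₂ =ᶠ[𝓝 z] fun u => pz u * F u := by
        filter_upwards [eventually_im_ne hz] with u hu
        exact hH2 u hu
      have e2 : logDeriv H₂ z = logDeriv pz z + logDeriv F z := by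
        rw [(logDeriv_congr_nhds e1).eq_of_nhds]
        exact logDeriv_mul z (pz_ne hz) hFz (pz_deriv z).differentiableAt
          (hFan' z hz).differentiableAt
      exact e2
    rw [hlog s hs h4, hlog _ hs' hF', map_add] at h5
    have h6 := pz_refl hs
    have h7 : deriv pz s / pz s + deriv F s / F s + ((((Fintype.card (K →+* ℂ)) : ℝ) * Real.log (1 * s.im) : ℝ) : ℂ) +
        ((starRingEnd ℂ) (deriv pz (1 - (starRingEnd ℂ) s) / pz (1 - (starRingEnd ℂ) s)) +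
          (starRingEnd ℂ) (deriv F (1 - (starRingEnd ℂ) s) / F (1 - (starRingEnd ℂ) s))) =
        deriv F s / F s + ((((Fintype.card (K →+* ℂ)) : ℝ) * Real.log (1 * s.im) : ℝ) : ℂ) +
          (starRingEnd ℂ) (deriv F (1 - (starRingEnd ℂ) s) / F (1 - (starRingEnd ℂ) s)) := by
      linear_combination h6
    rw [h7, hcard] at h5
    have h8 : Real.log R + (Module.finrank ℚ K : ℝ) * C + (Module.finrank ℚ K : ℝ) * C ≤ max A₁ A₂ := by
      rw [← hcard]
      refine le_trans ?_ (le_max_right _ _)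
      linarith
    exact h5.trans h8

end Pool.Agent.H474.ART
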